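import Pool.Agent.H98.AM.Targets

/-!
# Small helper lemmas for the AM modules
helper98
-/

open Polynomial
open scoped ComplexConjugate

noncomputable section

namespace Pool.Agent.H98.AM

theorem mop_apply {N : ℕ} [NeZero N] (g : ZMod N → ℂ) (f : Rg N) (n : ZMod N) :
    mop g f n = g n * f n := rfl

theorem bop_apply {N : ℕ} [NeZero N] (a : ZMod N → ℂ) (f : Rg N) (n : ZMod N) :
    bop a f n = a n * f (n - 1) + conj (a (n + 1)) * f (n + 1) := rfl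

theorem cut_apply {N : ℕ} [NeZero N] (s L j : ℕ) (ψ : ℤ → ℂ) (n : ZMod N) :
    (cut s L j ψ : Rg N) n = (chi s L j n.valMinAbs : ℂ) * ψ n.valMinAbs := rfl

theorem Qp_apply {N : ℕ} [NeZero N] (s : ℕ) (f : Rg N) (n : ZMod N) :
    Qp s f n = (if n.val % s = 0 ∨ n.val % s = s - 1 then 1 else 0) * f n := rfl

theorem Qp_idem {N : ℕ} [NeZero N] (s : ℕ) (f : Rg N) : Qp s (Qp s f) = Qp s f := by
  ext n
  rw [Qp_apply, Qp_apply]
  split_ifs <;> simp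

theorem Qp_symm {N : ℕ} [NeZero N] (s : ℕ) (f g : Rg N) :
    inner ℂ (Qp s f) g = inner ℂ f (Qp s g) := by
  rw [PiLp.inner_apply, PiLp.inner_apply]
  refine Finset.sum_congr rfl fun n _ => ?_
  rw [Qp_apply, Qp_apply]
  split_ifs <;> simp

theorem norm_ex (t : ℝ) : ‖ex t‖ = 1 := by
  unfold ex
  rw [show (2 * Real.pi * t * Complex.I : ℂ) = ((2 * Real.pi * t : ℝ) : ℂ) * Complex.I by
    push_cast; ring]
  exact Complex.norm_exp_ofReal_mul_I _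

theorem norm_bnd_le (β θ : ℝ) (n : ℤ) : ‖bnd β θ n‖ ≤ 2 := by
  unfold bnd
  calc ‖1 - ex (n * β + θ)‖ ≤ ‖(1 : ℂ)‖ + ‖ex (n * β + θ)‖ := norm_sub_le _ _
    _ = 2 := by rw [norm_ex]; norm_num

theorem norm_rb_le (β θ : ℝ) (N : ℕ) (n : ZMod N) : ‖rb β θ N n‖ ≤ 2 := norm_bnd_le _ _ _

theorem ev_le (hB4 : T_B4) {N : ℕ} [NeZero N] (β θ : ℝ) {ι : Type} [Fintype ι]
    (u : OrthonormalBasis ι ℂ (Rg N)) (ev : ι → ℝ) (h : IsEB (Tr β θ N) u ev) (i : ι) :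
    |ev i| ≤ 4 := by
  have := ((hB4 N (rb β θ N)).2 2 (fun n => norm_rb_le β θ N n)).2 ι u ev h i
  linarith

theorem cut_add {N : ℕ} [NeZero N] (s L j : ℕ) (ψ φ : ℤ → ℂ) :
    (cut s L j (fun n => ψ n + φ n) : Rg N) = cut s L j ψ + cut s L j φ := by
  ext n
  simp [cut_apply, mul_add]

theorem cut_smul {N : ℕ} [NeZero N] (s L j : ℕ) (c : ℂ) (ψ : ℤ → ℂ) :
    (cut s L j (fun n => c * ψ n) : Rg N) = c • cut s L j ψ := by
  ext n
  simp [cut_apply]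
  ring

/-- monotonicity of the norms of the cut-offs -/
theorem norm_cut_mono (hH1 : T_H1) {N : ℕ} [NeZero N] (s L j k : ℕ) (ψ : ℤ → ℂ) (hs : 1 ≤ s)
    (hL : 1 ≤ L) (hjk : j ≤ k) : ‖(cut s L j ψ : Rg N)‖ ≤ ‖(cut s L k ψ : Rg N)‖ := by
  induction k, hjk using Nat.le_induction with
  | base => exact le_rfl
  | succ k _ ih =>
    refine ih.trans ?_
    rw [EuclideanSpace.norm_eq, EuclideanSpace.norm_eq]
    refine Real.sqrt_le_sqrt (Finset.sum_le_sum fun n _ => ?_)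
    rw [cut_apply, cut_apply, norm_mul, norm_mul]
    obtain ⟨⟨h0, h1⟩, h2, -⟩ := hH1 s L k n.valMinAbs hs hL
    obtain ⟨⟨h0', h1'⟩, -⟩ := hH1 s L (k + 1) n.valMinAbs hs hL
    have : ‖(chi s L k n.valMinAbs : ℂ)‖ ≤ ‖(chi s L (k + 1) n.valMinAbs : ℂ)‖ := by
      rw [Complex.norm_real, Complex.norm_real, Real.norm_of_nonneg h0, Real.norm_of_nonneg h0']
      by_cases hc : chi s L k n.valMinAbs = 0
      · rw [hc]; exact h0'
      · rw [(h2 hc).1]; exact h1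
    have h3 := norm_nonneg (ψ n.valMinAbs)
    have h4 := norm_nonneg (chi s L k n.valMinAbs : ℂ)
    have : ‖(chi s L k n.valMinAbs : ℂ)‖ * ‖ψ n.valMinAbs‖
        ≤ ‖(chi s L (k + 1) n.valMinAbs : ℂ)‖ * ‖ψ n.valMinAbs‖ :=
      mul_le_mul_of_nonneg_right this h3
    gcongr

end Pool.Agent.H98.AM
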