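import Pool.Agent.H98.AM.Basic

/-!
# MP_29bb0a_mp, module J2: local comparison at phase 0
helper98
-/

open Polynomial
open scoped ComplexConjugate

noncomputable section

namespace Pool.Agent.H98.AM

theorem j2_powers {s : ℝ} (hs : 32 ≤ s) {e D : ℝ} (he : s ^ (-(21 / 10) : ℝ) ≤ e) (he1 : e ≤ 1 / s)
    (hD : s ^ (-(4 / 5) : ℝ) ≤ D) :
    0 < e ∧ 0 < D ∧ e ≤ D / 2 ∧ 1 / (s ^ 3 * D) ≤ e ∧ 1 / s ^ 4 ≤ e ∧ 1 / (s ^ 4 * D) ≤ e ∧
      1 / (s ^ 2 * D) ≤ 1 ∧ 1 / s ^ 2 ≤ Real.sqrt (e * D) := by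
  have hs0 : 0 < s := by linarith
  have hs1 : 1 ≤ s := by linarith
  have hepos : 0 < e := lt_of_lt_of_le (Real.rpow_pos_of_pos hs0 _) he
  have hDpos : 0 < D := lt_of_lt_of_le (Real.rpow_pos_of_pos hs0 _) hD
  have hDinv : 1 / D ≤ s ^ (4 / 5 : ℝ) := by
    rw [div_le_iff₀ hDpos]
    calc (1 : ℝ) = s ^ (4 / 5 : ℝ) * s ^ (-(4 / 5) : ℝ) := by
          rw [← Real.rpow_add hs0]; norm_num
      _ ≤ s ^ (4 / 5 : ℝ) * D := by gcongr
  have hpow : ∀ k : ℕ, (s ^ k : ℝ) = s ^ (k : ℝ) := fun k => (Real.rpow_natCast s k).symm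
  refine ⟨hepos, hDpos, ?_, ?_, ?_, ?_, ?_, ?_⟩
  · have h1 : (2 : ℝ) ≤ s ^ (1 / 5 : ℝ) := by
      calc (2 : ℝ) = (32 : ℝ) ^ (1 / 5 : ℝ) := by
            rw [show (32 : ℝ) = 2 ^ (5 : ℝ) by norm_num, ← Real.rpow_mul (by norm_num)]; norm_num
        _ ≤ s ^ (1 / 5 : ℝ) := Real.rpow_le_rpow (by norm_num) hs (by norm_num)
    have h2 : 1 / s = s ^ (-(4 / 5) : ℝ) * (s ^ (1 / 5 : ℝ))⁻¹ := by
      rw [← Real.rpow_neg hs0.le, ← Real.rpow_add hs0, one_div, ← Real.rpow_neg_one]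
      norm_num
    have h3 : (s ^ (1 / 5 : ℝ))⁻¹ ≤ 1 / 2 := by
      have h3' := inv_anti₀ (by norm_num : (0 : ℝ) < 2) h1
      norm_num at h3' ⊢
      exact h3'
    calc e ≤ 1 / s := he1
      _ = s ^ (-(4 / 5) : ℝ) * (s ^ (1 / 5 : ℝ))⁻¹ := h2
      _ ≤ D * (1 / 2) := by
          apply mul_le_mul hD h3 (by positivity) hDpos.le
      _ = D / 2 := by ring
  · calc 1 / (s ^ 3 * D) = (s ^ 3)⁻¹ * (1 / D) := by field_simp
      _ ≤ (s ^ 3)⁻¹ * s ^ (4 / 5 : ℝ) := by gcongr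
      _ = s ^ (-(11 / 5) : ℝ) := by
          rw [hpow, ← Real.rpow_neg hs0.le, ← Real.rpow_add hs0]; norm_num
      _ ≤ s ^ (-(21 / 10) : ℝ) := Real.rpow_le_rpow_of_exponent_le hs1 (by norm_num)
      _ ≤ e := he
  · calc 1 / s ^ 4 = s ^ (-4 : ℝ) := by
          rw [hpow, Real.rpow_neg hs0.le]; norm_num
      _ ≤ s ^ (-(21 / 10) : ℝ) := Real.rpow_le_rpow_of_exponent_le hs1 (by norm_num)
      _ ≤ e := he
  · calc 1 / (s ^ 4 * D) = (s ^ 4)⁻¹ * (1 / D) := by field_simp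
      _ ≤ (s ^ 4)⁻¹ * s ^ (4 / 5 : ℝ) := by gcongr
      _ = s ^ (-(16 / 5) : ℝ) := by
          rw [hpow, ← Real.rpow_neg hs0.le, ← Real.rpow_add hs0]; norm_num
      _ ≤ s ^ (-(21 / 10) : ℝ) := Real.rpow_le_rpow_of_exponent_le hs1 (by norm_num)
      _ ≤ e := he
  · calc 1 / (s ^ 2 * D) = (s ^ 2)⁻¹ * (1 / D) := by field_simp
      _ ≤ (s ^ 2)⁻¹ * s ^ (4 / 5 : ℝ) := by gcongr
      _ = s ^ (-(6 / 5) : ℝ) := by
          rw [hpow, ← Real.rpow_neg hs0.le, ← Real.rpow_add hs0]; norm_num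
      _ ≤ 1 := Real.rpow_le_one_of_one_le_of_nonpos hs1 (by norm_num)
  · apply Real.le_sqrt_of_sq_le
    calc (1 / s ^ 2) ^ 2 = s ^ (-4 : ℝ) := by
          rw [div_pow, one_pow, ← pow_mul, hpow, Real.rpow_neg hs0.le]; norm_num
      _ ≤ s ^ (-(21 / 10) : ℝ) * s ^ (-(4 / 5) : ℝ) := by
          rw [← Real.rpow_add hs0]
          exact Real.rpow_le_rpow_of_exponent_le hs1 (by norm_num)
      _ ≤ e * D := by gcongr

theorem j2 (hB4 : T_B4) (hG3 : T_G3) (hH2 : T_H2) (hH3 : T_H3) (hH4 : T_H4)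
    (hH5 : T_H5) : T_J2 := by
  intro C0 hC0
  set K1 : ℝ := 42 * C0 + 6000 * C0 + 1440 * C0 ^ 2 + 2 * (221 * C0) ^ 2 + 442 * C0 with hK1
  refine ⟨6 + 4 * K1 + 4 * (442 * C0), 32, ?_⟩
  intro p s _ β φ E ψ g ι _ u ev e D v Ω m0 hs hcop hβ hφ hE hψ hEB he he1 hD hD16 hv0 hv2 hve hVH
    hΩ hOm hm hg
  have hsR : (32 : ℝ) ≤ s := by exact_mod_cast hs
  have hs0 : (0 : ℝ) < s := by linarith
  obtain ⟨hepos, hDpos, heD, h3D, h4, h4D, h2D, hsq⟩ := j2_powers hsR he he1 hD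
  have h3s : 3 ≤ s := by omega
  have h1s : 1 ≤ s := by omega
  have hm0 : 0 ≤ m0 := (norm_nonneg _).trans (hm 0 (by norm_num))
  have hveq : v / s ^ 2 ≤ e := by
    rw [Real.rpow_neg hs0.le] at hve
    calc v / s ^ 2 = ((s : ℝ) ^ (2 : ℝ))⁻¹ * v := by
          rw [show ((s : ℝ) ^ (2 : ℝ)) = (s : ℝ) ^ 2 by norm_cast]; field_simp
      _ ≤ e := hve
  -- the parameters
  set δ : ℝ := C0 / s ^ 3 with hδ
  set Λ : ℝ := 221 * C0 / s ^ 2 with hΛ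
  set ν : ℝ := 42 * C0 * (v / s ^ 2) + 6000 * C0 * (1 / (s ^ 3 * D)) + 1440 * C0 ^ 2 * (1 / s ^ 4)
    with hν
  obtain ⟨K0, hK0⟩ : ∃ K0 : ℕ, 9 ≤ 2 ^ K0 * e := by
    obtain ⟨n, hn⟩ := pow_unbounded_of_one_lt (9 / e) (one_lt_two)
    exact ⟨n, by rw [div_lt_iff₀ hepos] at hn; exact hn.le⟩
  have hδs : δ * s = C0 / s ^ 2 := by rw [hδ]; field_simp
  have hδle : δ ≤ C0 / s ^ 2 := by
    rw [hδ]
    apply div_le_div_of_nonneg_left (by linarith) (by positivity)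
    exact pow_le_pow_right₀ (by linarith) (by norm_num)
  have hφs : |φ| / s ≤ C0 / s ^ 3 := by
    rw [div_le_div_iff₀ hs0 (by positivity)]
    rw [le_div_iff₀ (by positivity)] at hφ
    nlinarith [abs_nonneg φ]
  have hC0s : 0 ≤ C0 / s ^ 2 := by positivity
  have key := (hG3 (Rg (16 * s)) ι (Tr (p / s) 0 (16 * s)) u ev hEB (Qp s) (Qp_idem s) (Qp_symm s)
    E e (D / 2) Ω 0 Λ ν e m0 1 K0 hepos heD hΩ le_rfl (by positivity) (by positivity) hepos.le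
    le_rfl ?_ hOm (by simp) (fun j => cut s 1 j ψ) (fun j => cut s 1 j g)
    (fun j => Kop (p / s) 0 s 1 j) (fun j => Vop (p / s) 0 β φ s 1 j) ?_ ?_ ?_ ?_ ?_ ?_ ?_).1
  · refine key.trans ?_
    refine mul_le_mul_of_nonneg_right ?_ hm0
    have hκ : ν + Λ * (0 + Λ + e) / (D / 2) ≤ K1 * e := by
      have h5 : Λ * (0 + Λ + e) / (D / 2)
          = 2 * (221 * C0) ^ 2 * (1 / (s ^ 4 * D)) + 442 * C0 * (1 / (s ^ 2 * D)) * e := by
        rw [hΛ]; field_simp; ring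
      have h6 : 442 * C0 * (1 / (s ^ 2 * D)) * e ≤ 442 * C0 * e := by
        have : 442 * C0 * (1 / (s ^ 2 * D)) ≤ 442 * C0 * 1 := by gcongr
        nlinarith
      rw [h5, hν, hK1]
      have a1 : 42 * C0 * (v / s ^ 2) ≤ 42 * C0 * e := by gcongr
      have a2 : 6000 * C0 * (1 / (s ^ 3 * D)) ≤ 6000 * C0 * e := by gcongr
      have a3 : 1440 * C0 ^ 2 * (1 / s ^ 4) ≤ 1440 * C0 ^ 2 * e := by gcongr
      have a4 : 2 * (221 * C0) ^ 2 * (1 / (s ^ 4 * D)) ≤ 2 * (221 * C0) ^ 2 * e := by gcongr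
      nlinarith
    have hΛ' : Λ ≤ 442 * C0 * Real.sqrt (e * (D / 2)) := by
      have h7 : Real.sqrt (e * D) ≤ 2 * Real.sqrt (e * (D / 2)) := by
        rw [show (2 : ℝ) = Real.sqrt 4 by
          rw [show (4 : ℝ) = 2 ^ 2 by norm_num]; simp, ← Real.sqrt_mul (by norm_num)]
        apply Real.sqrt_le_sqrt
        rw [show Real.sqrt 4 = 2 by rw [show (4 : ℝ) = 2 ^ 2 by norm_num]; simp]
        nlinarith [mul_pos hepos hDpos]
      calc Λ = 221 * C0 * (1 / s ^ 2) := by rw [hΛ]; ring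
        _ ≤ 221 * C0 * Real.sqrt (e * D) := by gcongr
        _ ≤ 221 * C0 * (2 * Real.sqrt (e * (D / 2))) := by gcongr
        _ = _ := by ring
    have hsq1 : Real.sqrt (Ω / e) * e = Real.sqrt (Ω * e) := by
      rw [Real.sqrt_div' _ hepos.le, Real.sqrt_mul hΩ]
      have := Real.mul_self_sqrt hepos.le
      have h0 : Real.sqrt e ≠ 0 := (Real.sqrt_pos.2 hepos).ne'
      field_simp
      rw [sq, this]
    have hsq2 : Real.sqrt (Ω / (D / 2)) * Real.sqrt (e * (D / 2)) = Real.sqrt (Ω * e) := by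
      rw [← Real.sqrt_mul (by positivity)]
      congr 1
      field_simp
    have b1 : 4 * Real.sqrt (Ω / e) * (ν + Λ * (0 + Λ + e) / (D / 2))
        ≤ 4 * K1 * Real.sqrt (Ω * e) := by
      calc 4 * Real.sqrt (Ω / e) * (ν + Λ * (0 + Λ + e) / (D / 2))
          ≤ 4 * Real.sqrt (Ω / e) * (K1 * e) := by gcongr
        _ = 4 * K1 * (Real.sqrt (Ω / e) * e) := by ring
        _ = _ := by rw [hsq1]
    have b2 : 4 * Real.sqrt (Ω / (D / 2)) * Λ ≤ 4 * (442 * C0) * Real.sqrt (Ω * e) := by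
      calc 4 * Real.sqrt (Ω / (D / 2)) * Λ
          ≤ 4 * Real.sqrt (Ω / (D / 2)) * (442 * C0 * Real.sqrt (e * (D / 2))) := by gcongr
        _ = 4 * (442 * C0) * (Real.sqrt (Ω / (D / 2)) * Real.sqrt (e * (D / 2))) := by ring
        _ = _ := by rw [hsq2]
    calc (2 * Ω * (K0 : ℝ) * 0) ^ 1 + 6 * Real.sqrt (Ω * e)
          + 4 * Real.sqrt (Ω / e) * (ν + Λ * (0 + Λ + e) / (D / 2))
          + 4 * Real.sqrt (Ω / (D / 2)) * Λ
        ≤ 0 + 6 * Real.sqrt (Ω * e) + 4 * K1 * Real.sqrt (Ω * e)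
          + 4 * (442 * C0) * Real.sqrt (Ω * e) := by
          have : (2 * Ω * (K0 : ℝ) * 0) ^ 1 = 0 := by ring
          rw [this]
          linarith
      _ = _ := by ring
  · intro i
    have h8 := ev_le hB4 _ _ u ev hEB i
    calc |ev i - E| ≤ |ev i| + |E| := abs_sub _ _
      _ ≤ 9 := by linarith
      _ ≤ _ := hK0
  · intro j hj
    have h9 := hH2 p s 1 j 16 β 0 φ E E ψ g h3s le_rfl (by omega) (by simpa using hψ)
    rw [h9]
    simp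
  · intro j hj f
    exact (hH3 p s 1 j 16 0 h3s le_rfl (by omega) f).1
  · intro j hj f
    have := (hH3 p s 1 j 16 0 h3s le_rfl (by omega) f).2
    simpa using this
  · intro j hj f
    have h10 := hH4 p s 1 j 16 β 0 φ δ h3s hβ f
    refine h10.trans ?_
    gcongr
    push_cast
    rw [hΛ]
    calc 13 * (δ * 16 * s + |φ|) ≤ 13 * (16 * (C0 / s ^ 2) + C0 / s ^ 2) := by
          have : δ * 16 * s = 16 * (C0 / s ^ 2) := by rw [← hδs]; ring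
          rw [this]; gcongr
      _ = 221 * C0 / s ^ 2 := by ring
  · intro j hj f
    have h11 := hH5 p s 1 j 16 β 0 φ δ ι u ev E D v (D / 2) hEB h3s le_rfl (by omega) hβ
      (by simp) hVH hDpos hD16 hv0 (by positivity) le_rfl f
    refine h11.trans ?_
    gcongr
    have hj2 : (j : ℝ) ≤ 2 := by exact_mod_cast hj
    have hj0 : (0 : ℝ) ≤ j := by positivity
    have hX : δ * ((j + 2) * (1 : ℕ) * s + 1) + |φ| ≤ 6 * (C0 / s ^ 2) := by
      push_cast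
      have h12 : δ * ((j + 2) * 1 * s + 1) = (j + 2) * (δ * s) + δ := by ring
      rw [h12, hδs]
      nlinarith
    have hX0 : 0 ≤ δ * ((j + 2) * (1 : ℕ) * s + 1) + |φ| := by positivity
    have hY : 600 * ((j : ℝ) + 3) * (δ + |φ| / s) / D ≤ 6000 * C0 * (1 / (s ^ 3 * D)) := by
      calc 600 * ((j : ℝ) + 3) * (δ + |φ| / s) / D
          ≤ 600 * 5 * (C0 / s ^ 3 + C0 / s ^ 3) / D := by
            gcongr
            linarith
        _ = _ := by field_simp; ring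
    calc 7 * (δ * ((j + 2) * (1 : ℕ) * s + 1) + |φ|) * v + 600 * (j + 3) * (δ + |φ| / s) / D
          + 40 * (δ * ((j + 2) * (1 : ℕ) * s + 1) + |φ|) ^ 2
        ≤ 7 * (6 * (C0 / s ^ 2)) * v + 6000 * C0 * (1 / (s ^ 3 * D))
          + 40 * (6 * (C0 / s ^ 2)) ^ 2 := by gcongr
      _ = ν := by rw [hν]; ring
  · intro j hj
    exact hg j hj
  · intro j hj
    exact hm j hj

end Pool.Agent.H98.AM
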