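import Pool.Agent.H98.AM.Basic
import Pool.Agent.H98.AM.J2

/-!
# MP_29bb0a_mp, module J1: the local comparison lemma
helper98
-/

open Polynomial Filter Topology
open scoped ComplexConjugate

noncomputable section

namespace Pool.Agent.H98.AM

theorem j1_large (c ε C : ℝ) (hc : 0 < c) (hε : 0 < ε) :
    ∀ᶠ S : ℝ in atTop, 1 ≤ S ∧ 32 ≤ S ∧ C * S ^ (-(c / 4)) ≤ ε ∧ S ^ (-(c / 5)) ≤ 1 / 2 ∧
      4 * Real.pi * (Real.log (9 * S ^ (21 / 10 : ℝ)) / Real.log 2 + 1) ≤ S ^ (c / 20) := by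
  have h1 : ∀ᶠ S : ℝ in atTop, 1 ≤ S := eventually_ge_atTop 1
  have h2 : ∀ᶠ S : ℝ in atTop, 32 ≤ S := eventually_ge_atTop 32
  have h3 : Tendsto (fun S : ℝ => C * S ^ (-(c / 4))) atTop (𝓝 (C * 0)) :=
    (tendsto_rpow_neg_atTop (by positivity)).const_mul C
  have h4 : Tendsto (fun S : ℝ => S ^ (-(c / 5))) atTop (𝓝 0) :=
    tendsto_rpow_neg_atTop (by positivity)
  have h3' := h3.eventually (ge_mem_nhds (by simpa using hε : C * 0 < ε))
  have h4' := h4.eventually (ge_mem_nhds (by norm_num : (0 : ℝ) < 1 / 2))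
  have h5 : Tendsto (fun S : ℝ => Real.log S / S ^ (c / 20)) atTop (𝓝 0) :=
    (isLittleO_log_rpow_atTop (by positivity : 0 < c / 20)).tendsto_div_nhds_zero
  have h6 : Tendsto (fun S : ℝ => S ^ (-(c / 20))) atTop (𝓝 0) :=
    tendsto_rpow_neg_atTop (by positivity)
  have h7 : Tendsto (fun S : ℝ => 4 * Real.pi * ((21 / 10) / Real.log 2) *
      (Real.log S / S ^ (c / 20)) + 4 * Real.pi * (Real.log 9 / Real.log 2 + 1) *
      S ^ (-(c / 20))) atTop (𝓝 (4 * Real.pi * ((21 / 10) / Real.log 2) * 0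
        + 4 * Real.pi * (Real.log 9 / Real.log 2 + 1) * 0)) :=
    (h5.const_mul _).add (h6.const_mul _)
  have h7' := h7.eventually (ge_mem_nhds (by norm_num : (4 * Real.pi * ((21 / 10) / Real.log 2) * 0
        + 4 * Real.pi * (Real.log 9 / Real.log 2 + 1) * 0 : ℝ) < 1))
  filter_upwards [h1, h2, h3', h4', h7'] with S a1 a2 a3 a4 a5
  refine ⟨a1, a2, a3, a4, ?_⟩
  have hS : 0 < S := by linarith
  have hp : 0 < S ^ (c / 20) := Real.rpow_pos_of_pos hS _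
  rw [Real.log_mul (by norm_num) (by positivity), Real.log_rpow hS]
  rw [Real.rpow_neg hS.le] at a5
  have h8 : 4 * Real.pi * ((Real.log 9 + 21 / 10 * Real.log S) / Real.log 2 + 1)
      = (4 * Real.pi * ((21 / 10) / Real.log 2) * (Real.log S / S ^ (c / 20))
        + 4 * Real.pi * (Real.log 9 / Real.log 2 + 1) * (S ^ (c / 20))⁻¹) * S ^ (c / 20) := by
    have : Real.log 2 ≠ 0 := (Real.log_pos (by norm_num)).ne'
    field_simp
    ring
  rw [h8]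
  calc _ ≤ 1 * S ^ (c / 20) := by gcongr
    _ = _ := one_mul _

theorem j1_powers {S c e D : ℝ} (hc : 0 < c) (hc1 : c ≤ 1 / 20) (hS : 32 ≤ S)
    (he : S ^ (-(21 / 10) : ℝ) ≤ e) (hD : S ^ (-(4 / 5) : ℝ) ≤ D) :
    1 / (S ^ 3 * D) ≤ e * S ^ (-(c / 4)) ∧ S ^ (-4 + 2 * c) ≤ e * S ^ (-(c / 4)) ∧
    S ^ (-4 + 2 * c) / D ≤ e * S ^ (-(c / 4)) ∧ S ^ (-2 + c) / D ≤ S ^ (-(c / 4)) ∧
    S ^ (-2 + c) ≤ S ^ (-(c / 4)) * Real.sqrt (e * D) ∧
    Real.sqrt (S ^ (1 + 3 * c / 4) / e) * S ^ (-1 - c) * S ^ (-1 : ℝ) ≤ S ^ (-(c / 4)) ∧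
    S ^ (1 + 3 * c / 4) * S ^ (-1 - c) = S ^ (-(c / 4)) := by
  have hs0 : 0 < S := by linarith
  have hs1 : 1 ≤ S := by linarith
  have hepos : 0 < e := lt_of_lt_of_le (Real.rpow_pos_of_pos hs0 _) he
  have hDpos : 0 < D := lt_of_lt_of_le (Real.rpow_pos_of_pos hs0 _) hD
  have hDinv : 1 / D ≤ S ^ (4 / 5 : ℝ) := by
    rw [div_le_iff₀ hDpos]
    calc (1 : ℝ) = S ^ (4 / 5 : ℝ) * S ^ (-(4 / 5) : ℝ) := by
          rw [← Real.rpow_add hs0]; norm_num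
      _ ≤ S ^ (4 / 5 : ℝ) * D := by gcongr
  have heinv : 1 / e ≤ S ^ (21 / 10 : ℝ) := by
    rw [div_le_iff₀ hepos]
    calc (1 : ℝ) = S ^ (21 / 10 : ℝ) * S ^ (-(21 / 10) : ℝ) := by
          rw [← Real.rpow_add hs0]; norm_num
      _ ≤ S ^ (21 / 10 : ℝ) * e := by gcongr
  have hpow : ∀ k : ℕ, (S ^ k : ℝ) = S ^ (k : ℝ) := fun k => (Real.rpow_natCast S k).symm
  have hmono : ∀ {x y : ℝ}, x ≤ y → S ^ x ≤ S ^ y :=
    fun h => Real.rpow_le_rpow_of_exponent_le hs1 h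
  have hτ : 0 < S ^ (-(c / 4)) := Real.rpow_pos_of_pos hs0 _
  refine ⟨?_, ?_, ?_, ?_, ?_, ?_, ?_⟩
  · calc 1 / (S ^ 3 * D) = (S ^ 3)⁻¹ * (1 / D) := by field_simp
      _ ≤ (S ^ 3)⁻¹ * S ^ (4 / 5 : ℝ) := by gcongr
      _ = S ^ (-(11 / 5) : ℝ) := by
          rw [hpow, ← Real.rpow_neg hs0.le, ← Real.rpow_add hs0]; norm_num
      _ ≤ S ^ (-(21 / 10) : ℝ) * S ^ (-(c / 4)) := by
          rw [← Real.rpow_add hs0]; exact hmono (by linarith)
      _ ≤ e * S ^ (-(c / 4)) := by gcongr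
  · calc S ^ (-4 + 2 * c) ≤ S ^ (-(21 / 10) : ℝ) * S ^ (-(c / 4)) := by
          rw [← Real.rpow_add hs0]; exact hmono (by linarith)
      _ ≤ e * S ^ (-(c / 4)) := by gcongr
  · calc S ^ (-4 + 2 * c) / D = S ^ (-4 + 2 * c) * (1 / D) := by ring
      _ ≤ S ^ (-4 + 2 * c) * S ^ (4 / 5 : ℝ) := by gcongr
      _ ≤ S ^ (-(21 / 10) : ℝ) * S ^ (-(c / 4)) := by
          rw [← Real.rpow_add hs0, ← Real.rpow_add hs0]; exact hmono (by linarith)
      _ ≤ e * S ^ (-(c / 4)) := by gcongr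
  · calc S ^ (-2 + c) / D = S ^ (-2 + c) * (1 / D) := by ring
      _ ≤ S ^ (-2 + c) * S ^ (4 / 5 : ℝ) := by gcongr
      _ ≤ S ^ (-(c / 4)) := by
          rw [← Real.rpow_add hs0]; exact hmono (by linarith)
  · have h1 : S ^ (-(29 / 20) : ℝ) ≤ Real.sqrt (e * D) := by
      apply Real.le_sqrt_of_sq_le
      calc (S ^ (-(29 / 20) : ℝ)) ^ 2 = S ^ (-(21 / 10) : ℝ) * S ^ (-(4 / 5) : ℝ) := by
            rw [← Real.rpow_add hs0, ← Real.rpow_natCast, ← Real.rpow_mul hs0.le]; norm_num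
        _ ≤ e * D := by gcongr
    calc S ^ (-2 + c) ≤ S ^ (-(c / 4)) * S ^ (-(29 / 20) : ℝ) := by
          rw [← Real.rpow_add hs0]; exact hmono (by linarith)
      _ ≤ _ := by gcongr
  · have h2 : Real.sqrt (S ^ (1 + 3 * c / 4) / e) ≤ S ^ ((1 + 3 * c / 4 + 21 / 10) / 2) := by
      rw [Real.sqrt_le_left (Real.rpow_nonneg hs0.le _), ← Real.rpow_natCast (S ^ _),
        ← Real.rpow_mul hs0.le]
      calc S ^ (1 + 3 * c / 4) / e = S ^ (1 + 3 * c / 4) * (1 / e) := by ring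
        _ ≤ S ^ (1 + 3 * c / 4) * S ^ (21 / 10 : ℝ) := by gcongr
        _ = _ := by rw [← Real.rpow_add hs0]; congr 1; push_cast; ring
    calc Real.sqrt (S ^ (1 + 3 * c / 4) / e) * S ^ (-1 - c) * S ^ (-1 : ℝ)
        ≤ S ^ ((1 + 3 * c / 4 + 21 / 10) / 2) * S ^ (-1 - c) * S ^ (-1 : ℝ) := by gcongr
      _ ≤ S ^ (-(c / 4)) := by
          rw [← Real.rpow_add hs0, ← Real.rpow_add hs0]; exact hmono (by linarith)
  · rw [← Real.rpow_add hs0]; congr 1; ring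

/-- the number of dyadic shells -/
theorem j1_shells {S c e : ℝ} (hS : 32 ≤ S)
    (he : S ^ (-(21 / 10) : ℝ) ≤ e) (he1 : e ≤ 1 / S)
    (hlog : 4 * Real.pi * (Real.log (9 * S ^ (21 / 10 : ℝ)) / Real.log 2 + 1) ≤ S ^ (c / 20)) :
    ∃ K0 : ℕ, 9 ≤ 2 ^ K0 * e ∧
      2 * S ^ (1 + 3 * c / 4) * K0 * (2 * Real.pi * S ^ (-1 - c)) ≤ S ^ (-(c / 5)) := by
  have hs0 : 0 < S := by linarith
  have hs1 : 1 ≤ S := by linarith
  have hepos : 0 < e := lt_of_lt_of_le (Real.rpow_pos_of_pos hs0 _) he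
  have he9 : 1 ≤ 9 / e := by
    rw [le_div_iff₀ hepos]
    have : 1 / S ≤ 1 := by rw [div_le_iff₀ hs0]; linarith
    linarith
  have hl2 : 0 < Real.log 2 := Real.log_pos (by norm_num)
  refine ⟨⌈Real.log (9 / e) / Real.log 2⌉₊, ?_, ?_⟩
  · have h1 : Real.log (9 / e) / Real.log 2 ≤ ⌈Real.log (9 / e) / Real.log 2⌉₊ := Nat.le_ceil _
    rw [div_le_iff₀ hl2] at h1
    have h2 : Real.log (9 / e) ≤ Real.log (2 ^ ⌈Real.log (9 / e) / Real.log 2⌉₊) := by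
      rw [Real.log_pow]; exact h1
    have h3 := (Real.log_le_log_iff (by positivity) (by positivity)).1 h2
    rwa [div_le_iff₀ hepos] at h3
  · have h4 : (⌈Real.log (9 / e) / Real.log 2⌉₊ : ℝ) ≤ Real.log (9 / e) / Real.log 2 + 1 :=
      (Nat.ceil_lt_add_one (div_nonneg (Real.log_nonneg he9) hl2.le)).le
    have h5 : Real.log (9 / e) ≤ Real.log (9 * S ^ (21 / 10 : ℝ)) := by
      apply Real.log_le_log (by positivity)
      rw [div_eq_mul_inv]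
      gcongr
      calc e⁻¹ ≤ (S ^ (-(21 / 10) : ℝ))⁻¹ := inv_anti₀ (Real.rpow_pos_of_pos hs0 _) he
        _ = _ := by rw [← Real.rpow_neg hs0.le]; norm_num
    have h6 : (⌈Real.log (9 / e) / Real.log 2⌉₊ : ℝ)
        ≤ Real.log (9 * S ^ (21 / 10 : ℝ)) / Real.log 2 + 1 := by
      refine h4.trans ?_
      gcongr
    have h7 : S ^ (1 + 3 * c / 4) * S ^ (-1 - c) = S ^ (-(c / 4)) := by
      rw [← Real.rpow_add hs0]; congr 1; ring
    calc 2 * S ^ (1 + 3 * c / 4) * (⌈Real.log (9 / e) / Real.log 2⌉₊ : ℝ)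
          * (2 * Real.pi * S ^ (-1 - c))
        = 4 * Real.pi * (⌈Real.log (9 / e) / Real.log 2⌉₊ : ℝ)
          * (S ^ (1 + 3 * c / 4) * S ^ (-1 - c)) := by ring
      _ = 4 * Real.pi * (⌈Real.log (9 / e) / Real.log 2⌉₊ : ℝ) * S ^ (-(c / 4)) := by rw [h7]
      _ ≤ S ^ (c / 20) * S ^ (-(c / 4)) := by
          gcongr
          exact (mul_le_mul_of_nonneg_left h6 (by positivity)).trans hlog
      _ = S ^ (-(c / 5)) := by rw [← Real.rpow_add hs0]; congr 1; ring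

/-- the final numerical inequality -/
theorem j1_final {S c e D κ Λ η lam Θ ε0 A C2 : ℝ} {J : ℕ} (hS : 32 ≤ S)
    (hepos : 0 < e) (hDpos : 0 < D) (hA : 0 ≤ A) (hC2 : 0 ≤ C2)
    (hlam : lam = 2 * Real.pi * S ^ (-1 - c)) (hΛ : Λ = A * S ^ (-2 + c)) (hκ0 : 0 ≤ κ)
    (hκ : κ ≤ C2 * (e * S ^ (-(c / 4)))) (hη : η ≤ ε0 / 4 * e) (hΘ0 : 0 ≤ Θ) (hτ1 : S ^ (-(c / 4)) ≤ 1)
    (hΘ : Θ ^ J ≤ S ^ (-1 : ℝ))
    (p4 : S ^ (-2 + c) / D ≤ S ^ (-(c / 4)))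
    (p5 : S ^ (-2 + c) ≤ S ^ (-(c / 4)) * Real.sqrt (e * D))
    (p6 : Real.sqrt (S ^ (1 + 3 * c / 4) / e) * S ^ (-1 - c) * S ^ (-1 : ℝ) ≤ S ^ (-(c / 4)))
    (p7 : S ^ (1 + 3 * c / 4) * S ^ (-1 - c) = S ^ (-(c / 4)))
    (hsmall : (4 * Real.pi + 24 * Real.pi + 16 * Real.pi * C2 + 32 * Real.pi * A + C2 + 2 * A)
      * S ^ (-(c / 4)) ≤ 3 / 4 * ε0) :
    2 * Real.sqrt (S ^ (1 + 3 * c / 4) / e) * lam *
      (Θ ^ J + 6 * Real.sqrt (S ^ (1 + 3 * c / 4) * e)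
        + 4 * Real.sqrt (S ^ (1 + 3 * c / 4) / e) * κ
        + 4 * Real.sqrt (S ^ (1 + 3 * c / 4) / (D / 2)) * Λ)
      + κ / e + Λ / (D / 2) + η / e ≤ ε0 := by
  have hs0 : 0 < S := by linarith
  have hΩ : 0 < S ^ (1 + 3 * c / 4) := Real.rpow_pos_of_pos hs0 _
  set Ω := S ^ (1 + 3 * c / 4) with hΩd
  have hτ : 0 < S ^ (-(c / 4)) := Real.rpow_pos_of_pos hs0 _
  set τ := S ^ (-(c / 4)) with hτd
  have hl0 : 0 < S ^ (-1 - c) := Real.rpow_pos_of_pos hs0 _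
  have hlam0 : 0 ≤ lam := by rw [hlam]; positivity
  have hΩl : Ω * lam = 2 * Real.pi * τ := by
    rw [hlam, ← p7]; ring
  have hΛ0 : 0 ≤ Λ := by rw [hΛ]; have := Real.rpow_pos_of_pos hs0 (-2 + c); positivity
  have q1 : Real.sqrt (Ω / e) * Real.sqrt (Ω * e) = Ω := by
    rw [← Real.sqrt_mul (by positivity)]
    rw [show Ω / e * (Ω * e) = Ω ^ 2 by field_simp]
    exact Real.sqrt_sq hΩ.le
  have q2 : Real.sqrt (Ω / e) * Real.sqrt (Ω / e) = Ω / e := Real.mul_self_sqrt (by positivity)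
  have q3 : Real.sqrt (Ω / e) * Real.sqrt (Ω / (D / 2)) * Real.sqrt (e * D) ≤ 2 * Ω := by
    rw [← Real.sqrt_mul (by positivity), ← Real.sqrt_mul (by positivity)]
    rw [Real.sqrt_le_left (by positivity)]
    rw [show Ω / e * (Ω / (D / 2)) * (e * D) = 2 * Ω ^ 2 by field_simp]
    nlinarith [sq_nonneg Ω]
  -- term 1
  have t1 : 2 * Real.sqrt (Ω / e) * lam * Θ ^ J ≤ 4 * Real.pi * τ := by
    calc 2 * Real.sqrt (Ω / e) * lam * Θ ^ J
        ≤ 2 * Real.sqrt (Ω / e) * lam * S ^ (-1 : ℝ) := by gcongr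
      _ = 4 * Real.pi * (Real.sqrt (Ω / e) * S ^ (-1 - c) * S ^ (-1 : ℝ)) := by rw [hlam]; ring
      _ ≤ 4 * Real.pi * τ := by gcongr
  have t2 : 2 * Real.sqrt (Ω / e) * lam * (6 * Real.sqrt (Ω * e)) = 24 * Real.pi * τ := by
    calc 2 * Real.sqrt (Ω / e) * lam * (6 * Real.sqrt (Ω * e))
        = 12 * lam * (Real.sqrt (Ω / e) * Real.sqrt (Ω * e)) := by ring
      _ = 12 * (Ω * lam) := by rw [q1]; ring
      _ = _ := by rw [hΩl]; ring
  have t3 : 2 * Real.sqrt (Ω / e) * lam * (4 * Real.sqrt (Ω / e) * κ) ≤ 16 * Real.pi * C2 * τ := by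
    calc 2 * Real.sqrt (Ω / e) * lam * (4 * Real.sqrt (Ω / e) * κ)
        = 8 * (Real.sqrt (Ω / e) * Real.sqrt (Ω / e)) * lam * κ := by ring
      _ = 8 * (Ω * lam) / e * κ := by rw [q2]; ring
      _ ≤ 8 * (Ω * lam) / e * (C2 * (e * τ)) := by
          have : 0 ≤ 8 * (Ω * lam) / e := by positivity
          gcongr
      _ = 16 * Real.pi * C2 * (τ * τ) := by rw [hΩl]; field_simp; ring
      _ ≤ 16 * Real.pi * C2 * (1 * τ) := by gcongr
      _ = _ := by ring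
  have t4 : 2 * Real.sqrt (Ω / e) * lam * (4 * Real.sqrt (Ω / (D / 2)) * Λ)
      ≤ 32 * Real.pi * A * τ := by
    calc 2 * Real.sqrt (Ω / e) * lam * (4 * Real.sqrt (Ω / (D / 2)) * Λ)
        = 8 * lam * A * (Real.sqrt (Ω / e) * Real.sqrt (Ω / (D / 2)) * S ^ (-2 + c)) := by
          rw [hΛ]; ring
      _ ≤ 8 * lam * A * (Real.sqrt (Ω / e) * Real.sqrt (Ω / (D / 2))
            * (τ * Real.sqrt (e * D))) := by gcongr
      _ = 8 * lam * A * τ * (Real.sqrt (Ω / e) * Real.sqrt (Ω / (D / 2)) * Real.sqrt (e * D)) := by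
          ring
      _ ≤ 8 * lam * A * τ * (2 * Ω) := by gcongr
      _ = 16 * A * τ * (Ω * lam) := by ring
      _ = 32 * Real.pi * A * (τ * τ) := by rw [hΩl]; ring
      _ ≤ 32 * Real.pi * A * (1 * τ) := by gcongr
      _ = _ := by ring
  have t5 : κ / e ≤ C2 * τ := by
    rw [div_le_iff₀ hepos]
    calc κ ≤ C2 * (e * τ) := hκ
      _ = _ := by ring
  have t6 : Λ / (D / 2) ≤ 2 * A * τ := by
    calc Λ / (D / 2) = 2 * A * (S ^ (-2 + c) / D) := by rw [hΛ]; field_simp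
      _ ≤ 2 * A * τ := by gcongr
  have t7 : η / e ≤ ε0 / 4 := by
    rw [div_le_iff₀ hepos]; exact hη
  have expand : 2 * Real.sqrt (Ω / e) * lam *
      (Θ ^ J + 6 * Real.sqrt (Ω * e) + 4 * Real.sqrt (Ω / e) * κ
        + 4 * Real.sqrt (Ω / (D / 2)) * Λ)
      = 2 * Real.sqrt (Ω / e) * lam * Θ ^ J + 2 * Real.sqrt (Ω / e) * lam * (6 * Real.sqrt (Ω * e))
        + 2 * Real.sqrt (Ω / e) * lam * (4 * Real.sqrt (Ω / e) * κ)
        + 2 * Real.sqrt (Ω / e) * lam * (4 * Real.sqrt (Ω / (D / 2)) * Λ) := by ring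
  rw [expand]
  nlinarith

theorem j1 (hB4 : T_B4) (hG3 : T_G3) (hH1 : T_H1) (hH2 : T_H2) (hH3 : T_H3) (hH4 : T_H4)
    (hH5 : T_H5) : T_J1 := by
  intro C0 c hC0 hc hc1
  set J : ℕ := ⌈5 / c⌉₊ with hJ
  refine ⟨J, ?_⟩
  intro ε0 hε0
  set A : ℝ := 52 * (J + 6) * C0 with hA
  set C1 : ℝ := 7 * ((2 * J + 7) * C0) + 600 * (J + 4) * C0 + 40 * ((2 * J + 7) * C0) ^ 2 with hC1
  set C2 : ℝ := C1 + 4 * Real.pi * A + 2 * A ^ 2 + 2 * A with hC2
  have hA0 : 0 ≤ A := by positivity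
  have hC10 : 0 ≤ C1 := by positivity
  have hC20 : 0 ≤ C2 := by positivity
  obtain ⟨S0, hS0⟩ := Filter.eventually_atTop.1 (j1_large c (3 / 4 * ε0)
    (4 * Real.pi + 24 * Real.pi + 16 * Real.pi * C2 + 32 * Real.pi * A + C2 + 2 * A) hc
    (by positivity))
  refine ⟨⌈S0⌉₊, ?_⟩
  intro p s L M _ _ β θ E E0 ψ ι _ u ev e D v hs hcop hL hM hβ hθ hE hψ hEB he he1 hD hD16 hv0 hv2
    hve hVH hOm hη1 hη2
  obtain ⟨hS1, hS32, hsmall, hhalf, hlog⟩ := hS0 s ((Nat.le_ceil _).trans (by exact_mod_cast hs))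
  set S : ℝ := (s : ℝ) with hSd
  have hs0 : 0 < S := by linarith
  have h3s : 3 ≤ s := by
    have : (3 : ℝ) ≤ s := by rw [← hSd]; linarith
    exact_mod_cast this
  have h1s : 1 ≤ s := by omega
  obtain ⟨hepos, hDpos, heD, -⟩ := j2_powers hS32 he he1 hD
  obtain ⟨p1, p2, p3, p4, p5, p6, p7⟩ := j1_powers hc hc1 hS32 he hD
  obtain ⟨K0, hK0, hK0b⟩ := j1_shells hS32 he he1 hlog
  -- sizes of L and M
  have hSc1 : 1 ≤ S ^ c := Real.one_le_rpow hS1 hc.le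
  have hL1 : 1 ≤ L := by
    rw [hL]; exact Nat.one_le_iff_ne_zero.2 (by
      have := Nat.ceil_pos.2 (lt_of_lt_of_le one_pos hSc1); omega)
  have hLlow : S ^ c ≤ L := by rw [hL]; exact Nat.le_ceil _
  have hLupp : (L : ℝ) ≤ 2 * S ^ c := by
    have := (Nat.ceil_lt_add_one (by positivity : 0 ≤ S ^ c)).le
    rw [hL]
    linarith
  have hMR : (M : ℝ) = 2 * (J + 6) * L := by rw [hM]; push_cast; ring
  have hML : ∀ j ≤ J + 1, 2 * (j + 4) * L ≤ M := by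
    intro j hj
    rw [hM]
    exact Nat.mul_le_mul_right _ (by omega)
  have hJc : 5 ≤ J * c := by
    have : 5 / c ≤ J := by rw [hJ]; exact Nat.le_ceil _
    rwa [div_le_iff₀ hc] at this
  set δ : ℝ := C0 / S ^ 3 with hδ
  set lam : ℝ := 2 * Real.pi * S ^ (-1 - c) with hlam
  set Λ : ℝ := A * S ^ (-2 + c) with hΛ
  set ν : ℝ := 7 * ((2 * J + 7) * C0 * S ^ (-2 + c)) * v + 600 * (J + 4) * C0 * (1 / (S ^ 3 * D))
    + 40 * ((2 * J + 7) * C0 * S ^ (-2 + c)) ^ 2 with hν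
  have hpowc : S ^ (-2 + c) = S ^ (-2 : ℝ) * S ^ c := by rw [← Real.rpow_add hs0]
  have hS3 : δ * S = C0 * S ^ (-2 : ℝ) := by
    rw [hδ, Real.rpow_neg hs0.le, show (S ^ (2 : ℝ)) = S ^ 2 by norm_cast]
    field_simp
  have hδ' : δ ≤ C0 * S ^ (-2 + c) := by
    have h1 : δ ≤ δ * S := by
      have : 0 ≤ δ := by positivity
      nlinarith
    calc δ ≤ δ * S := h1
      _ = C0 * (S ^ (-2 : ℝ) * 1) := by rw [hS3]; ring
      _ ≤ C0 * (S ^ (-2 : ℝ) * S ^ c) := by gcongr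
      _ = _ := by rw [hpowc]
  have hrp : 0 < S ^ (-2 + c) := Real.rpow_pos_of_pos hs0 _
  have hτ1 : S ^ (-(c / 4)) ≤ 1 := Real.rpow_le_one_of_one_le_of_nonpos hS1 (by linarith)
  have hτ0 : 0 < S ^ (-(c / 4)) := Real.rpow_pos_of_pos hs0 _
  have hm0 : 0 ≤ ‖(cut s L (J + 2) ψ : Rg (M * s))‖ := norm_nonneg _
  have hν0 : 0 ≤ ν := by positivity
  have hΩ0 : 0 ≤ S ^ (1 + 3 * c / 4) := by positivity
  have hlam0 : 0 ≤ lam := by positivity
  have hΛ0 : 0 ≤ Λ := by positivity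
  set η : ℝ := |E0 - E| with hη
  have hη0 : 0 ≤ η := abs_nonneg _
  have key := (hG3 (Rg (M * s)) ι (Tr (p / s) θ (M * s)) u ev hEB (Qp s) (Qp_idem s) (Qp_symm s)
    E e (D / 2) (S ^ (1 + 3 * c / 4)) lam Λ ν η ‖(cut s L (J + 2) ψ : Rg (M * s))‖ J K0 hepos heD
    hΩ0 hlam0 hΛ0 hν0 hη0 hη2 ?_ hOm (hK0b.trans hhalf) (fun j => cut s L j ψ)
    (fun j => cut s L j (fun n => ((E0 : ℂ) - E) * ψ n))
    (fun j => Kop (p / s) θ s L j) (fun j => Vop (p / s) θ β 0 s L j) ?_ ?_ ?_ ?_ ?_ ?_ ?_).2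
  · refine key.trans ?_
    refine mul_le_mul_of_nonneg_right ?_ hm0
    refine j1_final (C2 := C2) (A := A) hS32 hepos hDpos hA0 hC20 rfl rfl (by positivity) ?_ hη1
      (by positivity) hτ1 ?_ p4 p5 p6 p7 hsmall
    · -- κ
      have a1 : ν ≤ C1 * (e * S ^ (-(c / 4))) := by
        have b1 : S ^ (-2 + c) * v ≤ e * S ^ (-(c / 4)) := hve
        have b2 : (S ^ (-2 + c)) ^ 2 = S ^ (-4 + 2 * c) := by
          rw [← Real.rpow_natCast, ← Real.rpow_mul hs0.le]; congr 1; push_cast; ring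
        calc ν = 7 * ((2 * J + 7) * C0) * (S ^ (-2 + c) * v)
              + 600 * (J + 4) * C0 * (1 / (S ^ 3 * D))
              + 40 * ((2 * J + 7) * C0) ^ 2 * ((S ^ (-2 + c)) ^ 2) := by rw [hν]; ring
          _ ≤ 7 * ((2 * J + 7) * C0) * (e * S ^ (-(c / 4)))
              + 600 * (J + 4) * C0 * (e * S ^ (-(c / 4)))
              + 40 * ((2 * J + 7) * C0) ^ 2 * (e * S ^ (-(c / 4))) := by
              rw [b2]; gcongr
          _ = _ := by rw [hC1]; ring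
      have a2 : Λ * (lam + Λ + η) / (D / 2)
          ≤ (4 * Real.pi * A + 2 * A ^ 2 + 2 * A) * (e * S ^ (-(c / 4))) := by
        have b3 : S ^ (-2 + c) * S ^ (-1 - c) = 1 / S ^ 3 := by
          rw [← Real.rpow_add hs0, show (-2 + c + (-1 - c)) = (-3 : ℝ) by ring,
            Real.rpow_neg hs0.le, show (S ^ (3 : ℝ)) = S ^ 3 by norm_cast]
          simp
        have b4 : S ^ (-2 + c) * S ^ (-2 + c) = S ^ (-4 + 2 * c) := by
          rw [← Real.rpow_add hs0]; congr 1; ring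
        calc Λ * (lam + Λ + η) / (D / 2)
            = 4 * Real.pi * A * ((S ^ (-2 + c) * S ^ (-1 - c)) / D)
              + 2 * A ^ 2 * ((S ^ (-2 + c) * S ^ (-2 + c)) / D)
              + 2 * A * (S ^ (-2 + c) / D) * η := by
              rw [hΛ, hlam]; field_simp; ring
          _ = 4 * Real.pi * A * (1 / (S ^ 3 * D)) + 2 * A ^ 2 * (S ^ (-4 + 2 * c) / D)
              + 2 * A * (S ^ (-2 + c) / D) * η := by
              rw [b3, b4]; congr 3; field_simp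
          _ ≤ 4 * Real.pi * A * (e * S ^ (-(c / 4))) + 2 * A ^ 2 * (e * S ^ (-(c / 4)))
              + 2 * A * S ^ (-(c / 4)) * e := by gcongr
          _ = _ := by ring
      calc ν + Λ * (lam + Λ + η) / (D / 2)
          ≤ C1 * (e * S ^ (-(c / 4)))
            + (4 * Real.pi * A + 2 * A ^ 2 + 2 * A) * (e * S ^ (-(c / 4))) := add_le_add a1 a2
        _ = _ := by rw [hC2]; ring
    · -- Θ^J
      calc (2 * S ^ (1 + 3 * c / 4) * K0 * lam) ^ J ≤ (S ^ (-(c / 5))) ^ J := by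
            gcongr
        _ = S ^ (-(c / 5) * J) := by rw [← Real.rpow_natCast, ← Real.rpow_mul hs0.le]
        _ ≤ S ^ (-1 : ℝ) := Real.rpow_le_rpow_of_exponent_le hS1 (by nlinarith)
  · intro i
    have h8 := ev_le hB4 _ _ u ev hEB i
    calc |ev i - E| ≤ |ev i| + |E| := abs_sub _ _
      _ ≤ 9 := by linarith
      _ ≤ _ := hK0
  · intro j hj
    have h9 := hH2 p s L j M β θ 0 E E0 ψ (fun _ => 0) h3s hL1 (hML j hj)
      (by simpa using hψ)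
    rw [h9]
    simp
  · intro j hj f
    exact (hH3 p s L j M θ h3s hL1 (hML j hj) f).1
  · intro j hj f
    refine ((hH3 p s L j M θ h3s hL1 (hML j hj) f).2).trans ?_
    gcongr
    calc 2 * Real.pi * |θ| / L ≤ 2 * Real.pi * (1 / S) / S ^ c := by gcongr
      _ = lam := by
          rw [hlam, show (-1 - c) = -1 + -c by ring, Real.rpow_add hs0, Real.rpow_neg hs0.le,
            Real.rpow_neg hs0.le, Real.rpow_one]
          field_simp
  · intro j hj f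
    refine (hH4 p s L j M β θ 0 δ h3s hβ f).trans ?_
    gcongr
    calc 13 * (δ * M * S + |(0 : ℝ)|) = 13 * (2 * (J + 6)) * (δ * S) * L := by
          rw [hMR]; simp; ring
      _ ≤ 13 * (2 * (J + 6)) * (δ * S) * (2 * S ^ c) := by
          have : 0 ≤ δ := by positivity
          gcongr
      _ = Λ := by rw [hS3, hΛ, hpowc, hA]; ring
  · intro j hj f
    refine (hH5 p s L j M β θ 0 δ ι u ev E D v (D / 2) hEB h3s hL1 (hML j hj) hβ
      hθ hVH hDpos hD16 hv0 (by positivity) le_rfl f).trans ?_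
    gcongr
    have hjJ : (j : ℝ) ≤ J + 1 := by exact_mod_cast hj
    have hδ0 : 0 ≤ δ := by positivity
    have hX : δ * ((j + 2) * L * S + 1) + |(0 : ℝ)| ≤ (2 * J + 7) * C0 * S ^ (-2 + c) := by
      rw [abs_zero, add_zero]
      calc δ * ((j + 2) * L * S + 1) = (j + 2) * L * (δ * S) + δ := by ring
        _ ≤ ((J + 1) + 2) * (2 * S ^ c) * (δ * S) + δ := by gcongr
        _ = (2 * J + 6) * C0 * S ^ (-2 + c) + δ := by rw [hS3, hpowc]; ring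
        _ ≤ (2 * J + 6) * C0 * S ^ (-2 + c) + C0 * S ^ (-2 + c) := by gcongr
        _ = _ := by ring
    have hY : 600 * ((j : ℝ) + 3) * (δ + |(0 : ℝ)| / S) / D
        ≤ 600 * (J + 4) * C0 * (1 / (S ^ 3 * D)) := by
      rw [abs_zero, zero_div, add_zero]
      calc 600 * ((j : ℝ) + 3) * δ / D ≤ 600 * ((J + 1) + 3) * δ / D := by gcongr
        _ = _ := by rw [hδ]; field_simp; ring
    have hX0 : 0 ≤ δ * ((j + 2) * L * S + 1) + |(0 : ℝ)| := by positivity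
    rw [hν]
    gcongr
  · intro j hj
    rw [cut_smul, norm_smul]
    have h10 : ‖((E0 : ℂ) - E)‖ = η := by
      rw [hη, ← Complex.ofReal_sub, Complex.norm_real, Real.norm_eq_abs]
    rw [h10]
    gcongr
    exact norm_cut_mono hH1 s L j (J + 2) ψ h1s hL1 (by omega)
  · intro j hj
    exact norm_cut_mono hH1 s L j (J + 2) ψ h1s hL1 hj

end Pool.Agent.H98.AM
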