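import Pool.Agent.H11.AM.A1
import Pool.Agent.H11.AM.A6
import Pool.Agent.H11.AM.A8
import Pool.Agent.H11.AM.H1
import Pool.Agent.H11.AM.H2
import Pool.Agent.H11.AM.H3
import Pool.Agent.H34.AM.B123
import Pool.Agent.H34.AM.B45
import Pool.Agent.H35.AM.C1
import Pool.Agent.H35.AM.C2
import Pool.Agent.H35.AM.C3
import Pool.Agent.H35.AM.C4
import Pool.Agent.H35.AM.C5
import Pool.Agent.H35.AM.C6
import Pool.Agent.H35.AM.C7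
import Pool.Agent.H35.AM.C8
import Pool.Agent.H80.AM.D11
import Pool.Agent.H58.AM.D
import Pool.Agent.H73.AM.E1
import Pool.Agent.H73.AM.E2
import Pool.Agent.H73.AM.E4
import Pool.Agent.H70.AM.E3
import Pool.Agent.H81.AM.F1
import Pool.Agent.H81.AM.F2
import Pool.Agent.H81.AM.F4
import Pool.Agent.H81.AM.F6
import Pool.Agent.H77.AM.G1
import Pool.Agent.H77.AM.G2
import Pool.Agent.H77.AM.G3
import Pool.Agent.H33.AM.H10
import Pool.Agent.H33.AM.H4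
import Pool.Agent.H33.AM.H6
import Pool.Agent.H33.AM.H7
import Pool.Agent.H33.AM.H8
import Pool.Agent.H33.AM.H9
import Pool.Agent.H18.AM.I1
import Pool.Agent.H70.AM.I2
import Pool.Agent.H14.AM.I3
import Pool.Agent.H14.AM.I4
import Pool.Agent.H14.AM.I6
import Pool.Agent.H67.AM.I5
import Pool.Agent.H98.AM.J1
import Pool.Agent.H98.AM.J2
import Pool.Agent.H36.AM.K2
import Pool.Agent.H36.AM.K5
import Pool.Agent.H77.AM.H5
import Pool.Agent.H36.AM.K1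
import Pool.Agent.H36.AM.K4
import Pool.Agent.H36.AM.K6
import Pool.Agent.H26.AM.M1
import Pool.Agent.H26.AM.M2
import Pool.Agent.H31.AM.M4
import Pool.Agent.H87.AM.L1
import Pool.Agent.H96.AM.L2
import Pool.Agent.H96.AM.O6
import Pool.Agent.H14.AM.N2
import Pool.Agent.H73.AM.O1
import Pool.Agent.H73.AM.O2
import Pool.Agent.H67.AM.O3
import Pool.Agent.H67.AM.O5
import Pool.Agent.H67.AM.O7
import Pool.Agent.H70.AM.O4

/-!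
# MP_29bb0a_mp: the proved modules
helper98
-/

noncomputable section

namespace Pool.Agent.H98.AM

theorem tA1 : T_A1 := H11.AM.a1
theorem tA2 : T_A2 := H11.AM.a2
theorem tA3 : T_A3 := H11.AM.a3
theorem tA4 : T_A4 := H11.AM.a4
theorem tA5 : T_A5 := H11.AM.a5
theorem tA6 : T_A6 := H11.AM.a6
theorem tA7 : T_A7 := H11.AM.a7
theorem tA8 : T_A8 := H11.AM.a8
theorem tB1 : T_B1 := H34.AM.B1
theorem tB2 : T_B2 := H34.AM.B2
theorem tB3 : T_B3 := H34.AM.B3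
theorem tB4 : T_B4 := H34.AM.B4
theorem tB5 : T_B5 := H34.AM.B5
theorem tC1 : T_C1 := H35.AM.c1 tA7 tA8 tB1 tB5
theorem tC2 : T_C2 := H35.AM.c2 tB2 tB5
theorem tC3 : T_C3 := H35.AM.c3 tA7 tB3 tB5 tC1
theorem tC4 : T_C4 := H35.AM.c4 tA2 tA3 tA4 tA7 tC1 tC2
theorem tC5 : T_C5 := H35.AM.c5 tA5 tB4 tC1
theorem tD1 : T_D1 := H80.AM.d1
theorem tC6 : T_C6 := H35.AM.c6 tB4 tC1 tC4 tC5 tD1
theorem tC7 : T_C7 := H35.AM.c7 tB4 tC1 tC2 tC5 tD1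
theorem tC8 : T_C8 := H35.AM.c8 tC1 tC2 tC7
theorem tD2 : T_D2 := H80.AM.d2
theorem tD3 : T_D3 := H80.AM.d3
theorem tD10 : T_D10 := H80.AM.d10
theorem tD11 : T_D11 := H80.AM.d11
theorem tD12 : T_D12 := H80.AM.d12
theorem tD4 : T_D4 := H58.AM.d4 tD10 tD12
theorem tD5 : T_D5 := H58.AM.d5 tD10 tD11
theorem tD6 : T_D6 := H58.AM.d6 tD10 tD11 tD12
theorem tD7 : T_D7 := H58.AM.d7 tD5
theorem tD8 : T_D8 := H58.AM.d8
theorem tD9 : T_D9 := H58.AM.d9 tD2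
theorem tE1 : T_E1 := H73.AM.e1
theorem tE2 : T_E2 := H73.AM.e2
theorem tE3 : T_E3 := H70.AM.e3 tA6 tC7 tE2
theorem tE4 : T_E4 := H73.AM.e4
theorem tF1 : T_F1 := H81.AM.f1
theorem tF2 : T_F2 := H81.AM.f2
theorem tF3 : T_F3 := H81.AM.f3
theorem tF4 : T_F4 := H81.AM.f4 tB4 tC8
theorem tF5 : T_F5 := H81.AM.f5 tB4 tC1 tC4 tC6
theorem tF6 : T_F6 := H81.AM.f6 tB4 tC1 tC5 tD4
theorem tF7 : T_F7 := H81.AM.f7 tB4 tC1
theorem tG1 : T_G1 := H77.AM.g1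
theorem tG2 : T_G2 := H77.AM.g2
theorem tG3 : T_G3 := H77.AM.g3
theorem tH1 : T_H1 := H11.AM.h1
theorem tH2 : T_H2 := H11.AM.h2
theorem tH3 : T_H3 := H11.AM.h3
theorem tH4 : T_H4 := H33.AM.h4
theorem tH6 : T_H6 := H33.AM.h6
theorem tH7 : T_H7 := H33.AM.h7
theorem tH8 : T_H8 := H33.AM.h8 tH1
theorem tH9 : T_H9 := H33.AM.h9 tH1
theorem tH10 : T_H10 := H33.AM.h10 tH1
theorem tI1 : T_I1 := H18.AM.i1 tB4 tC1
theorem tI2 : T_I2 := H70.AM.i2 tC5 tC6 tD4 tI1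
theorem tI3 : T_I3 := H14.AM.i3
theorem tI4 : T_I4 := H14.AM.i4
theorem tI5 : T_I5 := H67.AM.i5 tD9
theorem tI6 : T_I6 := H14.AM.i6
theorem tK2 : T_K2 := H36.AM.k2 tG1
theorem tK5 : T_K5 := H36.AM.k5 tB4 tF2 tF3 tG1
theorem tH5 : T_H5 := H77.AM.h5
theorem tJ1 : T_J1 := j1 tB4 tG3 tH1 tH2 tH3 tH4 tH5
theorem tJ2 : T_J2 := j2 tB4 tG3 tH2 tH3 tH4 tH5
theorem tK1 : T_K1 := H36.AM.k1 tB4 tC1 tC4 tC5 tD1 tD9 tG1
theorem tK4 : T_K4 := H36.AM.k4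
theorem tL1 : T_L1 := H87.AM.l1 tB4 tC1 tC5 tC6 tD3 tD7 tE4 tF1 tF4 tF7 tG1 tH6 tH7 tH8 tJ1
theorem tL2 : T_L2 := H96.AM.l2 tC6 tE3 tI3 tI4 tL1
theorem tN2 : T_N2 := H14.AM.n2 tH9
theorem tO1 : T_O1 := H73.AM.o1
theorem tO2 : T_O2 := H73.AM.o2
theorem tO3 : T_O3 := H67.AM.o3 tB4 tC1 tF1
theorem tO4 : T_O4 := H70.AM.o4 tC5 tC6 tD3 tI3 tO2 tO3
theorem tO5 : T_O5 := H67.AM.o5
theorem tO7 : T_O7 := H67.AM.o7

end Pool.Agent.H98.AM
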