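import Mathlib

/-!
# The almost Mathieu operator, its spectrum, box dimension, Cahen's constant
(definitions used in the hand-in for MP_29bb0a_mp).  helper98
-/

open Set Filter Topology

noncomputable section

namespace Pool.Agent.H98.AM

/-- `ℓ²(ℤ)` -/
abbrev L2Z := lp (fun _ : ℤ => ℂ) 2

theorem memℓp_shift (ψ : L2Z) (k : ℤ) : Memℓp (fun n : ℤ => ψ (n + k)) 2 := by
  have h := lp.memℓp ψ
  rw [memℓp_gen_iff (by norm_num)] at h ⊢
  exact (Equiv.addRight k).summable_iff.mpr h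

theorem memℓp_mul (v : ℤ → ℝ) (C : ℝ) (hv : ∀ n, |v n| ≤ C) (ψ : L2Z) :
    Memℓp (fun n : ℤ => (v n : ℂ) * ψ n) 2 := by
  have h := lp.memℓp ψ
  rw [memℓp_gen_iff (by norm_num)] at h ⊢
  have hC : 0 ≤ C := (abs_nonneg _).trans (hv 0)
  refine Summable.of_nonneg_of_le (fun n => by positivity) (fun n => ?_)
    (h.mul_left (C ^ (2 : ENNReal).toReal))
  rw [norm_mul, Complex.norm_real, Real.norm_eq_abs, Real.mul_rpow (abs_nonneg _) (norm_nonneg _)]
  apply mul_le_mul_of_nonneg_right _ (by positivity)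
  exact Real.rpow_le_rpow (abs_nonneg _) (hv n) (by norm_num)

/-- the translate `n ↦ ψ(n + k)` of a sequence -/
def shiftFun (k : ℤ) (ψ : L2Z) : L2Z := ⟨fun n => ψ (n + k), memℓp_shift ψ k⟩

theorem shiftFun_add (k : ℤ) (ψ φ : L2Z) : shiftFun k (ψ + φ) = shiftFun k ψ + shiftFun k φ :=
  rfl

theorem shiftFun_smul (k : ℤ) (c : ℂ) (ψ : L2Z) : shiftFun k (c • ψ) = c • shiftFun k ψ := by
  ext n; simp [shiftFun]

theorem shiftFun_norm (k : ℤ) (ψ : L2Z) : ‖shiftFun k ψ‖ ≤ 1 * ‖ψ‖ := by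
  rw [one_mul]
  apply le_of_eq
  unfold shiftFun
  rw [lp.norm_eq_tsum_rpow (by norm_num), lp.norm_eq_tsum_rpow (by norm_num)]
  congr 1
  exact (Equiv.addRight k).tsum_eq (fun n : ℤ => ‖ψ n‖ ^ (2 : ENNReal).toReal)

/-- translation `(T_k ψ)(n) = ψ(n + k)` as a bounded operator -/
def shift (k : ℤ) : L2Z →L[ℂ] L2Z :=
  LinearMap.mkContinuous ⟨⟨shiftFun k, shiftFun_add k⟩, shiftFun_smul k⟩ 1 (shiftFun_norm k)

/-- the potential of the almost Mathieu operator: `2 λ cos (2 π (θ + n α))` -/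
def potential (lam α θ : ℝ) (n : ℤ) : ℝ := 2 * lam * Real.cos (2 * Real.pi * (θ + n * α))

theorem abs_potential_le (lam α θ : ℝ) (n : ℤ) : |potential lam α θ n| ≤ 2 * |lam| := by
  unfold potential
  rw [abs_mul, abs_mul, abs_two]
  have := Real.abs_cos_le_one (2 * Real.pi * (θ + n * α))
  nlinarith [abs_nonneg lam, abs_nonneg (Real.cos (2 * Real.pi * (θ + n * α)))]

/-- the product of a sequence with the potential: `n ↦ V(n) ψ(n)` -/
def mulFun (lam α θ : ℝ) (ψ : L2Z) : L2Z :=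
  ⟨fun n => (potential lam α θ n : ℂ) * ψ n,
    memℓp_mul (potential lam α θ) (2 * |lam|) (abs_potential_le lam α θ) ψ⟩

theorem mulFun_add (lam α θ : ℝ) (ψ φ : L2Z) :
    mulFun lam α θ (ψ + φ) = mulFun lam α θ ψ + mulFun lam α θ φ := by
  ext n
  exact mul_add _ _ _

theorem mulFun_smul (lam α θ : ℝ) (c : ℂ) (ψ : L2Z) :
    mulFun lam α θ (c • ψ) = c • mulFun lam α θ ψ := by
  ext n; simp [mulFun, mul_left_comm]

theorem mulFun_norm (lam α θ : ℝ) (ψ : L2Z) : ‖mulFun lam α θ ψ‖ ≤ 2 * |lam| * ‖ψ‖ := by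
  have hC : 0 ≤ 2 * |lam| := by positivity
  refine lp.norm_le_of_tsum_le (by norm_num) (by positivity) ?_
  have h := lp.memℓp ψ
  rw [memℓp_gen_iff (by norm_num)] at h
  have h2 := memℓp_mul (potential lam α θ) (2 * |lam|) (abs_potential_le lam α θ) ψ
  rw [memℓp_gen_iff (by norm_num)] at h2
  rw [Real.mul_rpow hC (norm_nonneg _), lp.norm_rpow_eq_tsum (by norm_num), ← tsum_mul_left]
  refine Summable.tsum_le_tsum (fun n => ?_) h2 (h.mul_left _)
  simp only [mulFun]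
  rw [norm_mul, Complex.norm_real, Real.norm_eq_abs,
    Real.mul_rpow (abs_nonneg _) (norm_nonneg _)]
  apply mul_le_mul_of_nonneg_right _ (by positivity)
  exact Real.rpow_le_rpow (abs_nonneg _) (abs_potential_le lam α θ n) (by norm_num)

/-- multiplication by the potential as a bounded operator -/
def mulOp (lam α θ : ℝ) : L2Z →L[ℂ] L2Z :=
  LinearMap.mkContinuous ⟨⟨mulFun lam α θ, mulFun_add lam α θ⟩, mulFun_smul lam α θ⟩ (2 * |lam|)
    (mulFun_norm lam α θ)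

/-- the almost Mathieu operator `H_{λ,α,θ}` on `ℓ²(ℤ)` -/
def amoOp (lam α θ : ℝ) : L2Z →L[ℂ] L2Z := shift (-1) + shift 1 + mulOp lam α θ

theorem amoOp_apply (lam α θ : ℝ) (ψ : L2Z) (n : ℤ) :
    (amoOp lam α θ ψ : ℤ → ℂ) n
      = ψ (n - 1) + ψ (n + 1) + (2 * lam * Real.cos (2 * Real.pi * (θ + n * α)) : ℝ) * ψ n := rfl

/-- `Sp₊(α, λ)`, the union over `θ` of the spectra of `H_{λ,α,θ}` -/
def SpPlus (α lam : ℝ) : Set ℝ := {E | ∃ θ : ℝ, (E : ℂ) ∈ spectrum ℂ (amoOp lam α θ)}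

/-- `N_δ(F)`: the number of the intervals `[mδ, (m+1)δ]`, `m ∈ ℤ`, which meet `F` -/
def Ncov (δ : ℝ) (F : Set ℝ) : ℕ :=
  {m : ℤ | (Set.Icc (m * δ) ((m + 1) * δ) ∩ F).Nonempty}.ncard

/-- upper box-counting dimension -/
def upperBoxDim (F : Set ℝ) : EReal :=
  limsup (fun δ : ℝ => ((Real.log (Ncov δ F) / Real.log (1 / δ) : ℝ) : EReal)) (𝓝[>] 0)

/-- Sylvester's sequence: `s_0 = 2`, `s_{j+1} = 1 + ∏_{i ≤ j} s_i` -/
def sylvester (n : ℕ) : ℕ := 1 + ∏ i : Fin n, sylvester i.1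
termination_by n
decreasing_by exact i.2

/-- Cahen's constant -/
def cahen : ℝ := ∑' j : ℕ, (-1 : ℝ) ^ j / ((sylvester j : ℝ) - 1)

end Pool.Agent.H98.AM
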