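import Pool.Agent.H98.AM.Spec
import Pool.Agent.H98.AM.Statement

/-!
# The definitions of `Spec` agree with those of `Statement`
-/

open Set Filter Topology

noncomputable section

namespace Pool.Agent.H98.AM

theorem amoOp_bridge (lam α θ : ℝ) :
    (Spec.amoOp lam α θ : L2Z →L[ℂ] L2Z) = amoOp lam α θ := by
  apply ContinuousLinearMap.ext
  intro ψ
  apply Subtype.ext
  funext n
  exact (Spec.amoOp_apply lam α θ ψ n).trans (amoOp_apply lam α θ ψ n).symm

theorem spectrum_bridge (lam α θ : ℝ) :
    spectrum ℂ (Spec.amoOp lam α θ) = spectrum ℂ (amoOp lam α θ) := by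
  rw [← amoOp_bridge lam α θ]
  rfl

theorem SpPlus_bridge (α lam : ℝ) : Spec.SpPlus α lam = SpPlus α lam := by
  ext E
  simp only [Spec.SpPlus, SpPlus, Set.mem_ofPred_eq, spectrum_bridge]

theorem sylvester_bridge (n : ℕ) : Spec.sylvester n = sylvester n := by
  induction n using Nat.strong_induction_on with
  | _ n ih =>
    rw [Spec.sylvester, sylvester]
    congr 1
    exact Finset.prod_congr rfl (fun i _ => ih i.1 i.2)

theorem cahen_bridge : Spec.cahen = cahen := by
  unfold Spec.cahen cahen
  simp only [sylvester_bridge]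

theorem upperBoxDim_bridge (F : Set ℝ) : Spec.upperBoxDim F = upperBoxDim F := rfl

end Pool.Agent.H98.AM
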