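import Pool.Agent.H98.AM.Statement

/-!
# Critical almost Mathieu operator (MP_29bb0a_mp): definitions for the module board.
helper98
-/

open Polynomial
open scoped ComplexConjugate

noncomputable section

namespace Pool.Agent.H98.AM

/-! ## phases and bonds -/

/-- `e(t) = exp(2 pi i t)` -/
def ex (t : ℝ) : ℂ := Complex.exp (2 * Real.pi * t * Complex.I)

/-- the bond between the sites `n-1` and `n` of the chiral chain with flux `β` and phase `θ` -/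
def bnd (β θ : ℝ) (n : ℤ) : ℂ := 1 - ex (n * β + θ)

/-- its square modulus -/
def bsq (β θ : ℝ) (n : ℤ) : ℝ := Complex.normSq (bnd β θ n)

/-- continuant: `det (X - H)` for the open chain on the `m` sites `i, ..., i+m-1`, the bond between
the sites `j-1` and `j` having square modulus `B j` -/
def cont (B : ℤ → ℝ) (i : ℤ) : ℕ → ℝ[X]
  | 0 => 1
  | 1 => X
  | (m + 2) => X * cont B i (m + 1) - C (B (i + m + 1)) * cont B i m

/-- the discriminant at flux `p/s` -/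
def Dl (p : ℤ) (s : ℕ) : ℝ[X] := cont (bsq (p / s) 0) 0 s

/-- the two minors (site `0`, resp. site `-1`, removed) -/
def P0 (p : ℤ) (s : ℕ) (θ : ℝ) : ℝ[X] := cont (bsq (p / s) θ) 1 (s - 1)
def P1 (p : ℤ) (s : ℕ) (θ : ℝ) : ℝ[X] := cont (bsq (p / s) θ) 0 (s - 1)

/-- `t(θ, ζ) = 2 Re (ζ (1 - e(sθ)))` -/
def tt (s : ℕ) (θ : ℝ) (ζ : ℂ) : ℝ := 2 * (ζ * (1 - ex (s * θ))).re

/-- weight of a root of a polynomial `D`: `1 / |D'(e)|` -/
def om (D : ℝ[X]) (e : ℝ) : ℝ := 1 / |D.derivative.eval e|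

/-- monic real polynomial of degree `s` such that `D - t` has only real roots for `|t| ≤ 4` -/
structure Disc (s : ℕ) (D : ℝ[X]) : Prop where
  mon : D.Monic
  deg : D.natDegree = s
  rr : ∀ t : ℝ, |t| ≤ 4 → ∃ r : Fin s → ℝ, ∀ z : ℂ, aeval z D - t = ∏ i, (z - r i)

/-- trigonometric polynomials of degree at most `N` -/
def TrigDeg (N : ℕ) (h : ℝ → ℂ) : Prop :=
  ∃ c : ℤ → ℂ, ∀ θ, h θ = ∑ k ∈ Finset.Icc (-(N : ℤ)) N, c k * ex (k * θ)

/-! ## operators on rings -/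

/-- `ℓ²` of the ring with `N` sites -/
abbrev Rg (N : ℕ) [NeZero N] := EuclideanSpace ℂ (ZMod N)

/-- the ring operator with bond function `a` : `(Tf)(n) = a(n) f(n-1) + conj a(n+1) f(n+1)` -/
def bop {N : ℕ} [NeZero N] (a : ZMod N → ℂ) : Rg N →ₗ[ℂ] Rg N where
  toFun f := WithLp.toLp 2 fun n => a n * f (n - 1) + conj (a (n + 1)) * f (n + 1)
  map_add' f g := by
    ext n
    simp
    ring
  map_smul' c f := by
    ext n
    simp
    ring

/-- multiplication by a function -/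
def mop {N : ℕ} [NeZero N] (g : ZMod N → ℂ) : Rg N →ₗ[ℂ] Rg N where
  toFun f := WithLp.toLp 2 fun n => g n * f n
  map_add' f h := by
    ext n
    simp
    ring
  map_smul' c f := by
    ext n
    simp
    ring

/-- bond function of flux `β`, phase `θ` on a ring (used with `β = p/s`, `s ∣ N`) -/
def rb (β θ : ℝ) (N : ℕ) (n : ZMod N) : ℂ := bnd β θ (n.val : ℤ)

/-- fibre with twist `ζ` on the ring with `s` sites -/
def fb (p : ℤ) (s : ℕ) (θ : ℝ) (ζ : ℂ) (n : ZMod s) : ℂ :=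
  (if n = 0 then ζ else 1) * bnd (p / s) θ (n.val : ℤ)

/-- bond function of the `U` part: `u(n) = - e(n β + θ)` -/
def ub (β θ : ℝ) (N : ℕ) (n : ZMod N) : ℂ := -ex ((n.val : ℤ) * β + θ)

/-- the same with a twist, on the ring with `s` sites -/
def fub (p : ℤ) (s : ℕ) (θ : ℝ) (ζ : ℂ) (n : ZMod s) : ℂ :=
  (if n = 0 then ζ else 1) * (-ex ((n.val : ℤ) * (p / s) + θ))

/-- projection onto the sites `≡ 0, -1 mod s` -/
def Qp (s : ℕ) {N : ℕ} [NeZero N] : Rg N →ₗ[ℂ] Rg N :=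
  mop fun n => if n.val % s = 0 ∨ n.val % s = s - 1 then 1 else 0

/-! ## abstract eigenbases and spectral projections -/

section EB
variable {𝓗 : Type} [NormedAddCommGroup 𝓗] [InnerProductSpace ℂ 𝓗] {ι : Type} [Fintype ι]

/-- `u` is an orthonormal eigenbasis of `T` with real eigenvalues `ev` -/
def IsEB (T : 𝓗 →ₗ[ℂ] 𝓗) (u : OrthonormalBasis ι ℂ 𝓗) (ev : ι → ℝ) : Prop :=
  ∀ i, T (u i) = (ev i : ℂ) • u i

open Classical in
/-- spectral projection -/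
def pj (u : OrthonormalBasis ι ℂ 𝓗) (ev : ι → ℝ) (S : Set ℝ) (f : 𝓗) : 𝓗 :=
  ∑ i, if ev i ∈ S then inner ℂ (u i) f • u i else 0

end EB

/-- energy window -/
def win (E d : ℝ) : Set ℝ := {x | |x - E| ≤ d}

/-- complement of an energy window -/
def wout (E d : ℝ) : Set ℝ := {x | d < |x - E|}

/-! ## functions on the line -/

/-- line operator -/
def lop (β θ : ℝ) (ψ : ℤ → ℂ) (n : ℤ) : ℂ :=
  bnd β θ n * ψ (n - 1) + conj (bnd β θ (n + 1)) * ψ (n + 1)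

/-- quasi-periodic extension of a function on the ring with `s` sites -/
def ext (s : ℕ) (ζ : ℂ) (f : ZMod s → ℂ) (n : ℤ) : ℂ := (conj ζ) ^ (n / (s : ℤ)) * f (n : ZMod s)

/-- distance of the cell of `k` to the pair of cells `{0,-1}` (cells of length `s`) -/
def cdist (s : ℕ) (k : ℤ) : ℤ := max (k / (s : ℤ)) (-1 - k / (s : ℤ))

/-- cell-constant cut-off: `1` for `cdist ≤ (j+1)L`, `0` for `cdist ≥ (j+2)L`, linear in between -/
def chi (s L j : ℕ) (k : ℤ) : ℝ := max 0 (min 1 ((j : ℝ) + 2 - (cdist s k : ℝ) / L))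

/-- the cut-off function moved to the ring with `N` sites -/
def cut {N : ℕ} [NeZero N] (s L j : ℕ) (ψ : ℤ → ℂ) : Rg N :=
  WithLp.toLp 2 fun n => (chi s L j n.valMinAbs : ℂ) * ψ n.valMinAbs

/-- the comparison operator on the ring with `N` sites -/
def Tr (β θ : ℝ) (N : ℕ) [NeZero N] : Rg N →ₗ[ℂ] Rg N := bop (rb β θ N)

/-- `Γ = i (U - U*)` -/
def Gam (β θ : ℝ) (N : ℕ) [NeZero N] : Rg N →ₗ[ℂ] Rg N := bop fun n => Complex.I * ub β θ N n

/-- the fibre operator -/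
def Fi (p : ℤ) (s : ℕ) [NeZero s] (θ : ℝ) (ζ : ℂ) : Rg s →ₗ[ℂ] Rg s := bop (fb p s θ ζ)

/-- the cut-off `χ_j` as a multiplication operator on the ring -/
def Xop (s L j : ℕ) {N : ℕ} [NeZero N] : Rg N →ₗ[ℂ] Rg N :=
  mop fun n => (chi s L j n.valMinAbs : ℂ)

/-- `K_j = [T, χ_j]` -/
def Kop (β θ : ℝ) (s L j : ℕ) {N : ℕ} [NeZero N] : Rg N →ₗ[ℂ] Rg N :=
  Tr β θ N ∘ₗ Xop s L j - Xop s L j ∘ₗ Tr β θ N

/-- `V_j = χ_j (T - T')`, `T'` of flux `β'` and phase `θ + φ` -/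
def Vop (β θ β' φ : ℝ) (s L j : ℕ) {N : ℕ} [NeZero N] : Rg N →ₗ[ℂ] Rg N :=
  Xop s L j ∘ₗ bop fun n => rb β θ N n - bnd β' (θ + φ) n.valMinAbs

section hyp
variable {N : ℕ} [NeZero N] {ι : Type} [Fintype ι]

/-- smallness of `Γ` on a window -/
def VH (β θ : ℝ) (u : OrthonormalBasis ι ℂ (Rg N)) (ev : ι → ℝ) (E D v : ℝ) : Prop :=
  ∀ f, ‖pj u ev (win E D) (Gam β θ N (pj u ev (win E D) f))‖ ≤ v * ‖f‖

/-- local density of states at the weak bonds -/
def OmH (s : ℕ) (u : OrthonormalBasis ι ℂ (Rg N)) (ev : ι → ℝ) (E e Ω : ℝ) : Prop :=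
  ∀ d, e ≤ d → ∀ f, ‖pj u ev (win E d) (Qp s f)‖ ^ 2 ≤ Ω * d * ‖f‖ ^ 2

end hyp

/-- the matrix of `bop a` -/
def bmat {N : ℕ} (a : ZMod N → ℂ) : Matrix (ZMod N) (ZMod N) ℂ := fun i j =>
  (if j = i - 1 then a i else 0) + (if j = i + 1 then conj (a (i + 1)) else 0)

/-- weights of the roots at the two weak sites, phase `θ` -/
def hw (p : ℤ) (s : ℕ) (θ e : ℝ) : ℝ :=
  ((P0 p s θ).eval e + (P1 p s θ).eval e) / (Dl p s).derivative.eval e

/-- no heavy root of the level `p/x` near `E` -/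
def NoHeavy (p : ℤ) (x : ℕ) (E ρ : ℝ) : Prop :=
  ∀ e ∈ (Dl p x).roots, (x : ℝ) ^ (-(1 / 4) : ℝ) ≤ x * om (Dl p x) e → ρ < |E - e|

/-- the mass of `μ` (a weight function on the roots of `D`) in a ball -/
def bm (D : ℝ[X]) (mu : ℝ → ℝ) (E d : ℝ) : ℝ :=
  ∑ e ∈ (D.roots.toFinset).filter (fun e => |e - E| ≤ d), mu e

/-- adjacent levels `p/s`, `p'/r` with `r ≍ s²` -/
structure Adj (C0 : ℝ) (p : ℤ) (s : ℕ) (p' : ℤ) (r : ℕ) : Prop where
  cop : IsCoprime p (s : ℤ)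
  cop' : IsCoprime p' (r : ℤ)
  det : |p * r - p' * s| = 1
  low : (s : ℝ) ^ 2 ≤ C0 * r
  upp : (r : ℝ) ≤ C0 * s ^ 2

/-- real roots as a finite set -/
def rts (D : ℝ[X]) : Finset ℝ := D.roots.toFinset

end Pool.Agent.H98.AM
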