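import Pool.Agent.H98.AM.All
import Pool.Agent.H18.AM.M3
import Pool.Agent.H87.AM.N1
import Pool.Agent.H36.AM.K3
import Pool.Agent.H31.AM.N3

/-!
# MP_29bb0a_mp: the final theorem
helper98
-/

noncomputable section

namespace Pool.Agent.H98.AM

theorem tK3 : T_K3 := H36.AM.k3 tB4 tG1 tH6
theorem tK6 : T_K6 := H36.AM.k6 tK1 tK2 tK3 tK4 tK5
theorem tM1 : T_M1 := H26.AM.m1 tB4 tF1 tF5 tH1 tJ2 tK6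
theorem tM2 : T_M2 := H26.AM.m2 tB4 tC5 tC6 tD2 tD9 tF1 tF5 tH1 tH9 tJ2 tK6
theorem tM3 : T_M3 :=
  H18.AM.m3 tB4 tC5 tC6 tD7 tE4 tF1 tF4 tF6 tG1 tH6 tH7 tH8 tH9 tI6 tJ1 tK6
theorem tM4 : T_M4 :=
  H31.AM.m4 tB4 tC1 tC3 tC5 tC6 tD9 tE3 tH9 tI2 tI5 tM1 tM2 tM3
theorem tN1 : T_N1 :=
  H87.AM.n1 tB4 tC5 tC6 tD8 tE4 tF1 tF4 tF7 tG1 tH7 tH8 tH10 tJ1 tK6
theorem tN3 : T_N3 :=
  H31.AM.n3 tB4 tC1 tC5 tC6 tD6 tE3 tH6 tI1 tI2 tI3 tI4 tM4 tN1 tN2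
theorem tO6 : T_O6 := H96.AM.o6 tL2 tN3 tO4 tO5

/-- the upper box dimension at Cahen's constant -/
theorem main : upperBoxDim (SpPlus cahen 1) < ((2 / 3 : ℝ) : EReal) := by
  obtain ⟨C0, p, q, hC0, hq, h⟩ := tO7
  exact tO6 cahen C0 p q hC0 hq h

end Pool.Agent.H98.AM
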