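import Mathlib

/-!
# The almost Mathieu operator, its spectrum, box dimension, Cahen's constant
(the definitions used in the statement of the hand-in for MP_29bb0a_mp).  helper98
-/

open Set Filter Topology

noncomputable section

namespace Pool.Agent.H98.AM.Spec

/-- the Hilbert space `ℓ²(ℤ)` -/
def Ell2 : Type := lp (fun _ : ℤ => ℂ) 2

instance instNACG : NormedAddCommGroup Ell2 := lp.normedAddCommGroup (E := fun _ : ℤ => ℂ) (p := 2)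

instance instNS : NormedSpace ℂ Ell2 := lp.instNormedSpace (E := fun _ : ℤ => ℂ) (p := 2)

/-- the sequence `n ↦ ψ(n)` of an element of `ℓ²(ℤ)` -/
def val (ψ : Ell2) : ℤ → ℂ := Subtype.val ψ

/-- the value at `n` of `Hu`: `u(n-1) + u(n+1) + 2 λ cos (2 π (θ + n α)) u(n)` -/
def amoFun (lam α θ : ℝ) (u : ℤ → ℂ) (n : ℤ) : ℂ :=
  u (n - 1) + u (n + 1) + ((2 * lam * Real.cos (2 * Real.pi * (θ + n * α)) : ℝ) : ℂ) * u n

theorem memℓp_left (u : ℤ → ℂ) (hu : Memℓp u 2) : Memℓp (fun n : ℤ => u (n - 1)) 2 := by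
  rw [memℓp_gen_iff (by norm_num)] at hu ⊢
  exact (Equiv.subRight (1 : ℤ)).summable_iff.mpr hu

theorem memℓp_right (u : ℤ → ℂ) (hu : Memℓp u 2) : Memℓp (fun n : ℤ => u (n + 1)) 2 := by
  rw [memℓp_gen_iff (by norm_num)] at hu ⊢
  exact (Equiv.addRight (1 : ℤ)).summable_iff.mpr hu

theorem abs_pot_le (lam x : ℝ) : |2 * lam * Real.cos x| ≤ 2 * |lam| := by
  rw [abs_mul, abs_mul, abs_two]
  have := Real.abs_cos_le_one x
  nlinarith [abs_nonneg lam, abs_nonneg (Real.cos x)]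

theorem memℓp_pot (lam α θ : ℝ) (u : ℤ → ℂ) (hu : Memℓp u 2) :
    Memℓp (fun n : ℤ =>
      ((2 * lam * Real.cos (2 * Real.pi * (θ + n * α)) : ℝ) : ℂ) * u n) 2 := by
  rw [memℓp_gen_iff (by norm_num)] at hu ⊢
  refine Summable.of_nonneg_of_le (fun n => by positivity) (fun n => ?_)
    (hu.mul_left ((2 * |lam|) ^ (2 : ENNReal).toReal))
  rw [norm_mul, Complex.norm_real, Real.norm_eq_abs,
    Real.mul_rpow (abs_nonneg _) (norm_nonneg _)]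
  apply mul_le_mul_of_nonneg_right _ (by positivity)
  exact Real.rpow_le_rpow (abs_nonneg _) (abs_pot_le _ _) (by norm_num)

theorem memℓp_amoFun (lam α θ : ℝ) (u : ℤ → ℂ) (hu : Memℓp u 2) :
    Memℓp (amoFun lam α θ u) 2 :=
  ((memℓp_left u hu).add (memℓp_right u hu)).add (memℓp_pot lam α θ u hu)

theorem memℓp_val (ψ : Ell2) : Memℓp (val ψ) 2 := lp.memℓp (E := fun _ : ℤ => ℂ) ψ

/-- the element `Hψ` of `ℓ²(ℤ)` -/
def amoMap (lam α θ : ℝ) (ψ : Ell2) : Ell2 :=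
  ⟨amoFun lam α θ (val ψ), memℓp_amoFun lam α θ (val ψ) (memℓp_val ψ)⟩

theorem amoMap_add (lam α θ : ℝ) (ψ φ : Ell2) :
    amoMap lam α θ (ψ + φ) = amoMap lam α θ ψ + amoMap lam α θ φ := by
  apply Subtype.ext
  funext n
  change amoFun lam α θ (val ψ + val φ) n = amoFun lam α θ (val ψ) n + amoFun lam α θ (val φ) n
  simp only [amoFun, Pi.add_apply]
  ring

theorem amoMap_smul (lam α θ : ℝ) (c : ℂ) (ψ : Ell2) :
    amoMap lam α θ (c • ψ) = c • amoMap lam α θ ψ := by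
  apply Subtype.ext
  funext n
  change amoFun lam α θ (c • val ψ) n = c • amoFun lam α θ (val ψ) n
  simp only [amoFun, Pi.smul_apply, smul_eq_mul]
  ring

theorem norm_left (ψ : lp (fun _ : ℤ => ℂ) 2) :
    ‖(⟨fun n : ℤ => ψ (n - 1), memℓp_left _ (lp.memℓp ψ)⟩ : lp (fun _ : ℤ => ℂ) 2)‖ = ‖ψ‖ := by
  rw [lp.norm_eq_tsum_rpow (by norm_num), lp.norm_eq_tsum_rpow (by norm_num)]
  congr 1
  exact (Equiv.subRight (1 : ℤ)).tsum_eq (fun n : ℤ => ‖ψ n‖ ^ (2 : ENNReal).toReal)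

theorem norm_right (ψ : lp (fun _ : ℤ => ℂ) 2) :
    ‖(⟨fun n : ℤ => ψ (n + 1), memℓp_right _ (lp.memℓp ψ)⟩ : lp (fun _ : ℤ => ℂ) 2)‖ = ‖ψ‖ := by
  rw [lp.norm_eq_tsum_rpow (by norm_num), lp.norm_eq_tsum_rpow (by norm_num)]
  congr 1
  exact (Equiv.addRight (1 : ℤ)).tsum_eq (fun n : ℤ => ‖ψ n‖ ^ (2 : ENNReal).toReal)

theorem norm_pot (lam α θ : ℝ) (ψ : lp (fun _ : ℤ => ℂ) 2) :
    ‖(⟨fun n : ℤ => ((2 * lam * Real.cos (2 * Real.pi * (θ + n * α)) : ℝ) : ℂ) * ψ n,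
      memℓp_pot lam α θ _ (lp.memℓp ψ)⟩ : lp (fun _ : ℤ => ℂ) 2)‖ ≤ 2 * |lam| * ‖ψ‖ := by
  have hC : 0 ≤ 2 * |lam| := by positivity
  refine lp.norm_le_of_tsum_le (by norm_num) (by positivity) ?_
  have h := lp.memℓp ψ
  have h2 := memℓp_pot lam α θ _ h
  rw [memℓp_gen_iff (by norm_num)] at h h2
  rw [Real.mul_rpow hC (norm_nonneg _), lp.norm_rpow_eq_tsum (by norm_num), ← tsum_mul_left]
  refine Summable.tsum_le_tsum (fun n => ?_) h2 (h.mul_left _)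
  simp only []
  rw [norm_mul, Complex.norm_real, Real.norm_eq_abs,
    Real.mul_rpow (abs_nonneg _) (norm_nonneg _)]
  apply mul_le_mul_of_nonneg_right _ (by positivity)
  exact Real.rpow_le_rpow (abs_nonneg _) (abs_pot_le _ _) (by norm_num)

theorem amoMap_norm (lam α θ : ℝ) (ψ : Ell2) :
    ‖amoMap lam α θ ψ‖ ≤ (2 + 2 * |lam|) * ‖ψ‖ := by
  have h1 := norm_left ψ
  have h2 := norm_right ψ
  have h3 := norm_pot lam α θ ψ
  refine (norm_add₃_le (E := lp (fun _ : ℤ => ℂ) 2)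
    (a := ⟨fun n : ℤ => val ψ (n - 1), memℓp_left _ (lp.memℓp ψ)⟩)
    (b := ⟨fun n : ℤ => val ψ (n + 1), memℓp_right _ (lp.memℓp ψ)⟩)
    (c := ⟨fun n : ℤ => ((2 * lam * Real.cos (2 * Real.pi * (θ + n * α)) : ℝ) : ℂ) * val ψ n,
      memℓp_pot lam α θ _ (lp.memℓp ψ)⟩)).trans ?_
  have h4 : (2 + 2 * |lam|) * ‖ψ‖ = ‖ψ‖ + ‖ψ‖ + 2 * |lam| * ‖ψ‖ := by ring
  rw [h4]
  exact add_le_add (add_le_add h1.le h2.le) h3

/-- the almost Mathieu operator `H_{λ,α,θ}`, a bounded operator on `ℓ²(ℤ)` -/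
def amoOp (lam α θ : ℝ) : Ell2 →L[ℂ] Ell2 :=
  LinearMap.mkContinuous ⟨⟨amoMap lam α θ, amoMap_add lam α θ⟩, amoMap_smul lam α θ⟩
    (2 + 2 * |lam|) (amoMap_norm lam α θ)

theorem amoOp_apply (lam α θ : ℝ) (ψ : Ell2) (n : ℤ) :
    val (amoOp lam α θ ψ) n = val ψ (n - 1) + val ψ (n + 1)
      + ((2 * lam * Real.cos (2 * Real.pi * (θ + n * α)) : ℝ) : ℂ) * val ψ n := rfl

/-- `Sp₊(α, λ)`, the union over `θ` of the spectra of `H_{λ,α,θ}` -/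
def SpPlus (α lam : ℝ) : Set ℝ := {E | ∃ θ : ℝ, (E : ℂ) ∈ spectrum ℂ (amoOp lam α θ)}

/-- `N_δ(F)`: the number of the intervals `[mδ, (m+1)δ]`, `m ∈ ℤ`, which meet `F` -/
def Ncov (δ : ℝ) (F : Set ℝ) : ℕ :=
  {m : ℤ | (Set.Icc (m * δ) ((m + 1) * δ) ∩ F).Nonempty}.ncard

/-- upper box-counting dimension -/
def upperBoxDim (F : Set ℝ) : EReal :=
  limsup (fun δ : ℝ => ((Real.log (Ncov δ F) / Real.log (1 / δ) : ℝ) : EReal)) (𝓝[>] 0)

/-- Sylvester's sequence: `s_0 = 2`, `s_{j+1} = 1 + ∏_{i ≤ j} s_i` -/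
def sylvester (n : ℕ) : ℕ := 1 + ∏ i : Fin n, sylvester i.1
termination_by n
decreasing_by exact i.2

/-- Cahen's constant -/
def cahen : ℝ := ∑' j : ℕ, (-1 : ℝ) ^ j / ((sylvester j : ℝ) - 1)

end Pool.Agent.H98.AM.Spec
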