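import Pool.Agent.H98.AM.Defs

/-!
# Critical almost Mathieu operator (MP_29bb0a_mp): targets of the module board.
The proofs are in the blueprint (team-store `H98_AMO_blueprint.md`).
helper98
-/

open Polynomial
open scoped ComplexConjugate

noncomputable section

namespace Pool.Agent.H98.AM

/-! ## A. continuants -/

/-- left recursion -/
def T_A1 : Prop := ∀ (B : ℤ → ℝ) (i : ℤ) (m : ℕ),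
  cont B i (m + 2) = X * cont B (i + 1) (m + 1) - C (B (i + 1)) * cont B (i + 2) m

/-- congruence and shift -/
def T_A2 : Prop := ∀ (B B' : ℤ → ℝ) (i i' : ℤ) (m : ℕ),
  (∀ j : ℕ, j + 1 < m → B (i + j + 1) = B' (i' + j + 1)) → cont B i m = cont B' i' m

/-- reflection -/
def T_A3 : Prop := ∀ (B : ℤ → ℝ) (i : ℤ) (m : ℕ),
  cont (fun n => B (1 - n)) (1 - i - m) m = cont B i m

/-- Dodgson identity -/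
def T_A4 : Prop := ∀ (B : ℤ → ℝ) (i : ℤ) (m : ℕ),
  cont B i (m + 2) * cont B (i + 1) m - cont B i (m + 1) * cont B (i + 1) (m + 1)
    = - C (∏ j ∈ Finset.range (m + 1), B (i + j + 1))

/-- monic of degree `m` -/
def T_A5 : Prop := ∀ (B : ℤ → ℝ) (i : ℤ) (m : ℕ),
  (cont B i m).Monic ∧ (cont B i m).natDegree = m

/-- trigonometric degree -/
def T_A6 : Prop := ∀ (β : ℝ) (z : ℂ) (i : ℤ) (m : ℕ),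
  TrigDeg (m / 2) (fun θ => aeval z (cont (bsq β θ) i m))

/-- the two products -/
def T_A7 : Prop := ∀ (p : ℤ) (s : ℕ), IsCoprime p (s : ℤ) → 1 ≤ s →
  (∏ j ∈ Finset.range (s - 1), bsq (p / s) 0 ((j : ℤ) + 1) = (s : ℝ) ^ 2) ∧
  ∀ θ : ℝ, ∏ j ∈ Finset.range s, bnd (p / s) θ (j : ℤ) = 1 - ex (s * θ)

/-- Chambers' formula -/
def T_A8 : Prop := ∀ (p : ℤ) (s : ℕ), IsCoprime p (s : ℤ) → 3 ≤ s → ∀ θ : ℝ,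
  cont (bsq (p / s) θ) 0 s - C (bsq (p / s) θ 0) * cont (bsq (p / s) θ) 1 (s - 2) = Dl p s

/-! ## B. determinants and eigenvectors on a ring -/

/-- determinant of the ring matrix -/
def T_B1 : Prop := ∀ (s : ℕ) [NeZero s] (a : ZMod s → ℂ) (z : ℂ), 3 ≤ s →
  (z • (1 : Matrix (ZMod s) (ZMod s) ℂ) - bmat a).det
    = aeval z (cont (fun n : ℤ => Complex.normSq (a n)) 0 s)
      - Complex.normSq (a 0) * aeval z (cont (fun n : ℤ => Complex.normSq (a n)) 1 (s - 2))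
      - ∏ n, a n - ∏ n, conj (a n)

/-- the diagonal minors at `0` and at `-1` -/
def T_B2 : Prop := ∀ (s : ℕ) [NeZero s] (a : ZMod s → ℂ) (z : ℂ), 3 ≤ s →
  (z • (1 : Matrix (ZMod s) (ZMod s) ℂ) - bmat a).adjugate 0 0
    = aeval z (cont (fun n : ℤ => Complex.normSq (a n)) 1 (s - 1)) ∧
  (z • (1 : Matrix (ZMod s) (ZMod s) ℂ) - bmat a).adjugate (-1) (-1)
    = aeval z (cont (fun n : ℤ => Complex.normSq (a n)) 0 (s - 1))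

/-- the minor `(0,-1)` -/
def T_B3 : Prop := ∀ (s : ℕ) [NeZero s] (a : ZMod s → ℂ) (z : ℂ), 3 ≤ s →
  (z • (1 : Matrix (ZMod s) (ZMod s) ℂ) - bmat a).adjugate 0 (-1)
    = a 0 * aeval z (cont (fun n : ℤ => Complex.normSq (a n)) 1 (s - 2))
      + ∏ j ∈ Finset.range (s - 1), conj (a ((j + 1 : ℕ) : ZMod s))

/-- an eigenbasis exists, and the eigenvalues are bounded -/
def T_B4 : Prop := ∀ (N : ℕ) [NeZero N] (a : ZMod N → ℂ),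
  (∃ (u : OrthonormalBasis (Fin N) ℂ (Rg N)) (ev : Fin N → ℝ), IsEB (bop a) u ev) ∧
  ∀ (c : ℝ), (∀ n, ‖a n‖ ≤ c) → (∀ f, ‖bop a f‖ ≤ 2 * c * ‖f‖) ∧
    ∀ (ι : Type) [Fintype ι] (u : OrthonormalBasis ι ℂ (Rg N)) (ev : ι → ℝ), IsEB (bop a) u ev →
      ∀ i, |ev i| ≤ 2 * c

/-- determinant and adjugate from an eigenbasis -/
def T_B5 : Prop := ∀ (N : ℕ) [NeZero N] (a : ZMod N → ℂ) (ι : Type) [Fintype ι] [DecidableEq ι]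
  (u : OrthonormalBasis ι ℂ (Rg N)) (ev : ι → ℝ), 3 ≤ N → IsEB (bop a) u ev →
  (∀ z : ℂ, ∏ i, (z - ev i) = (z • (1 : Matrix (ZMod N) (ZMod N) ℂ) - bmat a).det) ∧
  ∀ (z : ℂ) (m n : ZMod N),
    ∑ i, u i m * conj (u i n) * ∏ j ∈ Finset.univ.erase i, (z - ev j)
      = (z • (1 : Matrix (ZMod N) (ZMod N) ℂ) - bmat a).adjugate m n

/-! ## C. facts about the fibres at flux `p/s` -/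

/-- characteristic polynomial of a fibre -/
def T_C1 : Prop := ∀ (p : ℤ) (s : ℕ) [NeZero s] (θ : ℝ) (ζ : ℂ) (ι : Type) [Fintype ι]
  (u : OrthonormalBasis ι ℂ (Rg s)) (ev : ι → ℝ), IsCoprime p (s : ℤ) → 3 ≤ s → ‖ζ‖ = 1 →
  IsEB (Fi p s θ ζ) u ev → ∀ z : ℂ, ∏ i, (z - ev i) = aeval z (Dl p s) - tt s θ ζ

/-- diagonal minors of a fibre -/
def T_C2 : Prop := ∀ (p : ℤ) (s : ℕ) [NeZero s] (θ : ℝ) (ζ : ℂ) (ι : Type) [Fintype ι]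
  [DecidableEq ι] (u : OrthonormalBasis ι ℂ (Rg s)) (ev : ι → ℝ), IsCoprime p (s : ℤ) → 3 ≤ s →
  ‖ζ‖ = 1 → IsEB (Fi p s θ ζ) u ev → ∀ z : ℂ,
  (∑ i, ((‖u i 0‖ ^ 2 : ℝ) : ℂ) * ∏ j ∈ Finset.univ.erase i, (z - ev j) = aeval z (P0 p s θ)) ∧
  (∑ i, ((‖u i (-1)‖ ^ 2 : ℝ) : ℂ) * ∏ j ∈ Finset.univ.erase i, (z - ev j)
    = aeval z (P1 p s θ))

/-- lower bound for the product of the two end values -/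
def T_C3 : Prop := ∀ (p : ℤ) (s : ℕ) [NeZero s] (θ : ℝ) (ζ : ℂ) (ι : Type) [Fintype ι]
  (u : OrthonormalBasis ι ℂ (Rg s)) (ev : ι → ℝ), IsCoprime p (s : ℤ) → 3 ≤ s → ‖ζ‖ = 1 →
  tt s θ ζ = 0 → IsEB (Fi p s θ ζ) u ev → ∀ i,
  ‖1 - ex (s * θ)‖ ≤ ‖bnd (p / s) θ 0‖ * (‖u i 0‖ * ‖u i (-1)‖)
    * |(Dl p s).derivative.eval (ev i)|

/-- the open chain (`θ = 0`): end weights -/
def T_C4 : Prop := ∀ (p : ℤ) (s : ℕ) [NeZero s] (ι : Type) [Fintype ι]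
  (u : OrthonormalBasis ι ℂ (Rg s)) (ev : ι → ℝ), IsCoprime p (s : ℤ) → 3 ≤ s →
  IsEB (Fi p s 0 1) u ev → ∀ i,
  ‖u i 0‖ ^ 2 = s * om (Dl p s) (ev i) ∧ ‖u i (-1)‖ ^ 2 = s * om (Dl p s) (ev i)

/-- `Δ` is a discriminant -/
def T_C5 : Prop := ∀ (p : ℤ) (s : ℕ), IsCoprime p (s : ℤ) → 3 ≤ s → Disc s (Dl p s)

/-- the roots, the sum of their weights -/
def T_C6 : Prop := ∀ (p : ℤ) (s : ℕ), IsCoprime p (s : ℤ) → 3 ≤ s →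
  (rts (Dl p s)).card = s ∧ (∀ e ∈ rts (Dl p s), |e| ≤ 4) ∧
  (∑ e ∈ rts (Dl p s), om (Dl p s) e = 1 / s) ∧ (∀ e ∈ rts (Dl p s), 0 < om (Dl p s) e)

/-- the weights `h_e(θ)` -/
def T_C7 : Prop := ∀ (p : ℤ) (s : ℕ), IsCoprime p (s : ℤ) → 3 ≤ s → ∀ θ : ℝ,
  (∀ e ∈ rts (Dl p s), 0 ≤ (P0 p s θ).eval e / (Dl p s).derivative.eval e ∧
    0 ≤ (P1 p s θ).eval e / (Dl p s).derivative.eval e) ∧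
  (∑ e ∈ rts (Dl p s), hw p s θ e = 2) ∧
  (∀ z : ℂ, z.im ≠ 0 → aeval z (Dl p s) ≠ 0 ∧
    aeval z (P0 p s θ) / aeval z (Dl p s)
      = ∑ e ∈ rts (Dl p s), (((P0 p s θ).eval e / (Dl p s).derivative.eval e : ℝ) : ℂ) / (z - e) ∧
    aeval z (P1 p s θ) / aeval z (Dl p s)
      = ∑ e ∈ rts (Dl p s), (((P1 p s θ).eval e / (Dl p s).derivative.eval e : ℝ) : ℂ) / (z - e))

/-- local density of states of a fibre at the two weak sites -/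
def T_C8 : Prop := ∀ (p : ℤ) (s : ℕ) [NeZero s] (θ : ℝ) (ζ : ℂ) (ι : Type) [Fintype ι]
  (u : OrthonormalBasis ι ℂ (Rg s)) (ev : ι → ℝ), IsCoprime p (s : ℤ) → 3 ≤ s → ‖ζ‖ = 1 →
  IsEB (Fi p s θ ζ) u ev → ∀ E d R : ℝ, 0 < d → 0 ≤ R →
  (∀ t : ℝ, |t| ≤ 2 * ‖1 - ex (s * θ)‖ →
    ‖aeval ((E : ℂ) + d * Complex.I) (Dl p s)‖
      ≤ R * ‖aeval ((E : ℂ) + d * Complex.I) (Dl p s) - t‖) →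
  ∑ i ∈ Finset.univ.filter (fun i => |ev i - E| ≤ d), (‖u i 0‖ ^ 2 + ‖u i (-1)‖ ^ 2)
    ≤ 2 * d * R * ∑ e ∈ rts (Dl p s), hw p s θ e / ‖(E : ℂ) + d * Complex.I - e‖

/-! ## D. real-rooted polynomials -/

def T_D1 : Prop := ∀ (s : ℕ) (D : ℝ[X]), Disc s D → 1 ≤ s → ∀ e, D.eval e = 0 →
  D.derivative.eval e ≠ 0

def T_D2 : Prop := ∀ (s : ℕ) (D : ℝ[X]), Disc s D → 1 ≤ s → ∀ e e', D.eval e = 0 →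
  D.eval e' = 0 → e ≠ e' → 2 * (om D e + om D e') ≤ |e - e'|

def T_D3 : Prop := ∀ (s : ℕ) (D : ℝ[X]), Disc s D → 1 ≤ s → ∀ E : ℝ, |D.eval E| ≤ 4 →
  ∃ e, D.eval e = 0 ∧ |E - e| ≤ 11 * om D e

def T_D4 : Prop := ∀ (s : ℕ) (D : ℝ[X]), Disc s D → 1 ≤ s → ∀ e, D.eval e = 0 →
  (∀ E, |E - e| ≤ 2 * om D e → |D.eval E| ≤ 2 * |E - e| / om D e) ∧
  (∀ (t : ℝ) (r : Fin s → ℝ), (∀ z : ℂ, aeval z D - t = ∏ i, (z - r i)) → ∀ i j,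
    |r i - e| ≤ 2 * om D e → |r j - e| ≤ 2 * om D e → i = j)

def T_D5 : Prop := ∀ (s : ℕ) (D : ℝ[X]), Disc s D → 1 ≤ s → ∀ e, D.eval e = 0 →
  (∃ ρ, D.eval ρ = 4 ∧ |ρ - e| ≤ 11 * om D e) ∧ (∃ ρ, D.eval ρ = -4 ∧ |ρ - e| ≤ 11 * om D e)

/-- the bands -/
def T_D6 : Prop := ∀ (s : ℕ) (D : ℝ[X]), Disc s D → 1 ≤ s → ∃ α β : ℝ → ℝ,
  (∀ e, D.eval e = 0 → α e < e - 2 * om D e ∧ e + 2 * om D e < β e ∧ e - 11 * om D e ≤ α e ∧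
    β e ≤ e + 11 * om D e ∧ (∀ E ∈ Set.Icc (α e) (β e), |D.eval E| ≤ 4) ∧
    (∀ (t : ℝ) (r : Fin s → ℝ), (∀ z : ℂ, aeval z D - t = ∏ i, (z - r i)) → ∀ i j,
      r i ∈ Set.Ioo (α e) (β e) → r j ∈ Set.Ioo (α e) (β e) → i = j)) ∧
  (∀ E, |D.eval E| ≤ 4 → ∃ e, D.eval e = 0 ∧ E ∈ Set.Icc (α e) (β e))

/-- structure of the bands (`α e`, `β e` the ends of the band of the root `e`) -/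
def T_D10 : Prop := ∀ (s : ℕ) (D : ℝ[X]), Disc s D → 1 ≤ s → ∃ α β : ℝ → ℝ,
  (∀ e, D.eval e = 0 → α e < e ∧ e < β e ∧
    ((D.eval (α e) = 4 ∧ D.eval (β e) = -4) ∨ (D.eval (α e) = -4 ∧ D.eval (β e) = 4)) ∧
    (∀ E ∈ Set.Ioo (α e) (β e), |D.eval E| < 4 ∧ D.derivative.eval E ≠ 0)) ∧
  (∀ e e', D.eval e = 0 → D.eval e' = 0 → e < e' → β e ≤ α e') ∧
  (∀ E, |D.eval E| ≤ 4 → ∃ e, D.eval e = 0 ∧ E ∈ Set.Icc (α e) (β e))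

/-- outer bound for a band -/
def T_D11 : Prop := ∀ (s : ℕ) (D : ℝ[X]) (e a b : ℝ), Disc s D → 1 ≤ s → D.eval e = 0 →
  a < e → e < b →
  ((D.eval a = 4 ∧ D.eval b = -4) ∨ (D.eval a = -4 ∧ D.eval b = 4)) →
  (∀ E ∈ Set.Ioo a b, |D.eval E| < 4 ∧ D.derivative.eval E ≠ 0) →
  e - a ≤ 11 * om D e ∧ b - e ≤ 11 * om D e

/-- inner bound for a band -/
def T_D12 : Prop := ∀ (s : ℕ) (D : ℝ[X]) (e a b : ℝ), Disc s D → 1 ≤ s → D.eval e = 0 →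
  a < e → e < b →
  ((D.eval a = 4 ∧ D.eval b = -4) ∨ (D.eval a = -4 ∧ D.eval b = 4)) →
  (∀ E ∈ Set.Ioo a b, |D.eval E| < 4 ∧ D.derivative.eval E ≠ 0) →
  a < e - 2 * om D e ∧ e + 2 * om D e < b ∧
  ∀ E, |E - e| ≤ 2 * om D e → |D.eval E| ≤ 2 * |E - e| / om D e

/-- distance to the ellipse -/
def T_D7 : Prop := ∀ (s : ℕ) (D : ℝ[X]), Disc s D → 1 ≤ s → ∀ e, D.eval e = 0 →
  ∀ E d u t : ℝ, 0 < u → u ≤ 1 → 0 < d → u * |E - e| ≤ d → u * om D e ≤ d → |t| ≤ 4 →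
  u ^ 2 * ‖aeval ((E : ℂ) + d * Complex.I) D‖
    ≤ 600 * ‖aeval ((E : ℂ) + d * Complex.I) D - t‖

def T_D8 : Prop := ∀ (s : ℕ) (D : ℝ[X]), Disc s D → ∀ E d u t : ℝ, 0 ≤ u → u ≤ 1 → 0 ≤ d →
  4 ≤ |D.eval E| → |t| ≤ 4 * (1 - u) →
  u * ‖aeval ((E : ℂ) + d * Complex.I) D‖ ≤ ‖aeval ((E : ℂ) + d * Complex.I) D - t‖

/-- sum of weights of the roots in an interval -/
def T_D9 : Prop := ∀ (s : ℕ) (D : ℝ[X]), Disc s D → 1 ≤ s → ∀ (F : Finset ℝ) (a b w : ℝ),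
  (∀ e ∈ F, D.eval e = 0 ∧ a ≤ e ∧ e ≤ b ∧ om D e ≤ w) → a ≤ b → 0 ≤ w →
  ∑ e ∈ F, om D e ≤ (b - a) / 4 + w

/-! ## E. the universal measure -/

/-- Fejér domination of non-negative trigonometric polynomials -/
def T_E1 : Prop := ∀ (N : ℕ) (g : ℝ → ℝ), 1 ≤ N → TrigDeg N (fun θ => (g θ : ℂ)) →
  (∀ θ, 0 ≤ g θ) → ∀ θ, g θ ≤ 2 * ∫ φ in (0 : ℝ)..1,
    (1 / (2 * N : ℝ)) * Complex.normSq (∑ j ∈ Finset.range (2 * N), ex (j * (θ - φ))) * g φ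

/-- simultaneous bound -/
def T_E2 : Prop := ∀ (N : ℕ) (κ : Type) [Fintype κ] (g : κ → ℝ → ℝ), 1 ≤ N →
  (∀ k, TrigDeg N (fun θ => (g k θ : ℂ))) → (∀ k θ, 0 ≤ g k θ) →
  (∀ θ, ∑ k, g k θ ≤ 2) → ∀ x : κ → ℝ, (∀ k, |x k| ≤ 1 / N) → ∑ k, g k (x k) ≤ 40

/-- the universal measure -/
def T_E3 : Prop := ∀ (p : ℤ) (s : ℕ), IsCoprime p (s : ℤ) → 3 ≤ s → ∃ mu : ℝ → ℝ,
  (∀ e, 0 ≤ mu e) ∧ (∀ θ : ℝ, |θ| ≤ 1 / s → ∀ e ∈ rts (Dl p s), hw p s θ e ≤ mu e) ∧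
  ∑ e ∈ rts (Dl p s), mu e ≤ 40

/-- the Stieltjes sum of a light point -/
def T_E4 : Prop := ∀ (D : ℝ[X]) (mu : ℝ → ℝ) (E d T : ℝ) (k : ℕ), (∀ e, 0 ≤ mu e) →
  (∀ e ∈ rts D, |e| ≤ 4) → |E| ≤ 5 → 0 < d → 16 ≤ 2 ^ k * d → (∀ d', d ≤ d' → bm D mu E d' ≤ T * d') →
  ∑ e ∈ rts D, mu e / ‖(E : ℂ) + d * Complex.I - e‖ ≤ T * (1 + 2 * k)

/-! ## F. Bloch decomposition of a ring -/

/-- quasi-periodic extension intertwines the fibre and the line operator -/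
def T_F1 : Prop := ∀ (p : ℤ) (s : ℕ) [NeZero s] (θ : ℝ) (ζ : ℂ) (f : Rg s) (n : ℤ), ‖ζ‖ = 1 →
  lop (p / s) θ (ext s ζ f) n = ext s ζ (Fi p s θ ζ f) n

/-- Bloch eigenbasis -/
def T_F2 : Prop := ∀ (p : ℤ) (s M : ℕ) [NeZero s] [NeZero M] (θ : ℝ)
  (φ : Fin M → OrthonormalBasis (Fin s) ℂ (Rg s)) (ev : Fin M → Fin s → ℝ), 3 ≤ s →
  (∀ k : Fin M, IsEB (Fi p s θ (ex ((k : ℕ) / (M : ℝ)))) (φ k) (ev k)) →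
  ∃ u : OrthonormalBasis (Fin M × Fin s) ℂ (Rg (M * s)),
    IsEB (Tr (p / s) θ (M * s)) u (fun x => ev x.1 x.2) ∧
    (∀ k i (n : ZMod (M * s)), u (k, i) n
      = (1 / Real.sqrt M : ℝ) * ext s (ex ((k : ℕ) / (M : ℝ))) (φ k i) (n.val : ℤ))

/-- spectral projections and eigenvalue counts do not depend on the eigenbasis -/
def T_F3 : Prop := ∀ (N : ℕ) [NeZero N] (T : Rg N →ₗ[ℂ] Rg N) (ι κ : Type) [Fintype ι] [Fintype κ]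
  (u : OrthonormalBasis ι ℂ (Rg N)) (ev : ι → ℝ) (w : OrthonormalBasis κ ℂ (Rg N)) (ew : κ → ℝ),
  IsEB T u ev → IsEB T w ew → ∀ S : Set ℝ, (∀ f, pj u ev S f = pj w ew S f) ∧
    Nat.card {i // ev i ∈ S} = Nat.card {i // ew i ∈ S}

/-- density of states at the weak bonds of the ring -/
def T_F4 : Prop := ∀ (p : ℤ) (s M : ℕ) [NeZero s] [NeZero M] (θ : ℝ) (mu : ℝ → ℝ) (ι : Type)
  [Fintype ι] (u : OrthonormalBasis ι ℂ (Rg (M * s))) (ev : ι → ℝ), IsCoprime p (s : ℤ) → 3 ≤ s →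
  IsEB (Tr (p / s) θ (M * s)) u ev → (∀ e ∈ rts (Dl p s), hw p s θ e ≤ mu e) →
  ∀ E d R : ℝ, 0 < d → 0 ≤ R →
  (∀ t : ℝ, |t| ≤ 2 * ‖1 - ex (s * θ)‖ →
    ‖aeval ((E : ℂ) + d * Complex.I) (Dl p s)‖
      ≤ R * ‖aeval ((E : ℂ) + d * Complex.I) (Dl p s) - t‖) →
  ∀ f, ‖pj u ev (win E d) (Qp s f)‖ ^ 2
    ≤ 2 * d * R * (∑ e ∈ rts (Dl p s), mu e / ‖(E : ℂ) + d * Complex.I - e‖) * ‖f‖ ^ 2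

/-- the same at phase `0` -/
def T_F5 : Prop := ∀ (p : ℤ) (s M : ℕ) [NeZero s] [NeZero M] (ι : Type)
  [Fintype ι] (u : OrthonormalBasis ι ℂ (Rg (M * s))) (ev : ι → ℝ), IsCoprime p (s : ℤ) → 3 ≤ s →
  IsEB (Tr (p / s) 0 (M * s)) u ev → ∀ E d : ℝ, ∀ f, ‖pj u ev (win E d) (Qp s f)‖ ^ 2
    ≤ 2 * s * bm (Dl p s) (om (Dl p s)) E d * ‖f‖ ^ 2

/-- number of eigenvalues of the ring near the centre of a band -/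
def T_F6 : Prop := ∀ (p : ℤ) (s M : ℕ) [NeZero s] [NeZero M] (θ : ℝ) (ι : Type)
  [Fintype ι] (u : OrthonormalBasis ι ℂ (Rg (M * s))) (ev : ι → ℝ), IsCoprime p (s : ℤ) → 3 ≤ s →
  IsEB (Tr (p / s) θ (M * s)) u ev → ∀ e ∈ rts (Dl p s), ∀ w : ℝ, 0 ≤ w →
  w ≤ 2 * om (Dl p s) e →
  Nat.card {i // |ev i - e| ≤ w} ≤ M ∧
  (0 < ‖1 - ex (s * θ)‖ → (Nat.card {i // |ev i - e| ≤ w} : ℝ)
    ≤ M * w / (om (Dl p s) e * ‖1 - ex (s * θ)‖) + 2)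

/-- the spectrum of the ring lies in the bands -/
def T_F7 : Prop := ∀ (p : ℤ) (s M : ℕ) [NeZero s] [NeZero M] (θ : ℝ) (ι : Type)
  [Fintype ι] (u : OrthonormalBasis ι ℂ (Rg (M * s))) (ev : ι → ℝ), IsCoprime p (s : ℤ) → 3 ≤ s →
  IsEB (Tr (p / s) θ (M * s)) u ev → ∀ i, |(Dl p s).eval (ev i)| ≤ 4 ∧ |ev i| ≤ 4

/-! ## G. abstract spectral lemmas -/

/-- basic properties of spectral projections -/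
def T_G1 : Prop := ∀ (𝓗 : Type) [NormedAddCommGroup 𝓗] [InnerProductSpace ℂ 𝓗] (ι : Type)
  [Fintype ι] (T : 𝓗 →ₗ[ℂ] 𝓗) (u : OrthonormalBasis ι ℂ 𝓗) (ev : ι → ℝ), IsEB T u ev →
  (∀ (S : Set ℝ) (f g : 𝓗), pj u ev S (f + g) = pj u ev S f + pj u ev S g) ∧
  (∀ (S : Set ℝ) (c : ℂ) (f : 𝓗), pj u ev S (c • f) = c • pj u ev S f) ∧
  (∀ (S S' : Set ℝ) (f : 𝓗), pj u ev S (pj u ev S' f) = pj u ev (S ∩ S') f) ∧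
  (∀ (S : Set ℝ) (f g : 𝓗), inner ℂ (pj u ev S f) g = inner ℂ f (pj u ev S g)) ∧
  (∀ (S : Set ℝ) (f : 𝓗), ‖pj u ev S f‖ ^ 2 + ‖pj u ev Sᶜ f‖ ^ 2 = ‖f‖ ^ 2) ∧
  (∀ (S : Set ℝ) (f : 𝓗), pj u ev S f + pj u ev Sᶜ f = f) ∧
  (∀ (S : Set ℝ) (f : 𝓗), T (pj u ev S f) = pj u ev S (T f)) ∧
  (∀ (E d : ℝ) (f : 𝓗), 0 ≤ d → ‖T (pj u ev (win E d) f) - (E : ℂ) • pj u ev (win E d) f‖
    ≤ d * ‖pj u ev (win E d) f‖) ∧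
  (∀ (E d : ℝ) (f : 𝓗), 0 ≤ d → d * ‖pj u ev (wout E d) f‖ ≤ ‖T f - (E : ℂ) • f‖) ∧
  (∀ (E d : ℝ), (win E d)ᶜ = wout E d)

/-- separated windows -/
def T_G2 : Prop := ∀ (𝓗 : Type) [NormedAddCommGroup 𝓗] [InnerProductSpace ℂ 𝓗] (ι : Type)
  [Fintype ι] (T : 𝓗 →ₗ[ℂ] 𝓗) (u : OrthonormalBasis ι ℂ 𝓗) (ev : ι → ℝ), IsEB T u ev →
  ∀ (A : 𝓗 →ₗ[ℂ] 𝓗) (E d d' c : ℝ), 0 ≤ d → d < d' → 0 ≤ c →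
  (∀ f, ‖T (A f) - A (T f)‖ ≤ c * ‖f‖) →
  (∀ f, ‖pj u ev (win E d) (A (pj u ev (wout E d') f))‖ ≤ c / (d' - d) * ‖f‖) ∧
  (∀ f, ‖pj u ev (wout E d') (A (pj u ev (win E d) f))‖ ≤ c / (d' - d) * ‖f‖)

/-- the abstract localisation lemma -/
def T_G3 : Prop := ∀ (𝓗 : Type) [NormedAddCommGroup 𝓗] [InnerProductSpace ℂ 𝓗] (ι : Type)
  [Fintype ι] (T : 𝓗 →ₗ[ℂ] 𝓗) (u : OrthonormalBasis ι ℂ 𝓗) (ev : ι → ℝ), IsEB T u ev →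
  ∀ (Q : 𝓗 →ₗ[ℂ] 𝓗), (∀ f, Q (Q f) = Q f) → (∀ f g, inner ℂ (Q f) g = inner ℂ f (Q g)) →
  ∀ (E e d1 Ω lam Λ ν η m0 : ℝ) (J K0 : ℕ), 0 < e → e ≤ d1 → 0 ≤ Ω → 0 ≤ lam → 0 ≤ Λ → 0 ≤ ν →
  0 ≤ η → η ≤ e → (∀ i, |ev i - E| ≤ 2 ^ K0 * e) →
  (∀ d, e ≤ d → ∀ f, ‖pj u ev (win E d) (Q f)‖ ^ 2 ≤ Ω * d * ‖f‖ ^ 2) →
  2 * Ω * K0 * lam ≤ 1 / 2 →
  ∀ (Φ g : ℕ → 𝓗) (K V : ℕ → (𝓗 →ₗ[ℂ] 𝓗)),
  (∀ j ≤ J + 1, T (Φ j) - (E : ℂ) • Φ j = K j (Φ (j + 1)) + V j (Φ (j + 1)) + g j) →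
  (∀ j ≤ J + 1, ∀ f, K j f = Q (K j (Q f))) → (∀ j ≤ J + 1, ∀ f, ‖K j f‖ ≤ lam * ‖f‖) →
  (∀ j ≤ J + 1, ∀ f, ‖V j f‖ ≤ Λ * ‖f‖) →
  (∀ j ≤ J + 1, ∀ f, ‖pj u ev (win E d1) (V j (pj u ev (win E d1) f))‖ ≤ ν * ‖f‖) →
  (∀ j ≤ J + 1, ‖g j‖ ≤ η * m0) → (∀ j ≤ J + 2, ‖Φ j‖ ≤ m0) →
  ‖Q (Φ 0)‖ ≤ ((2 * Ω * K0 * lam) ^ J + 6 * Real.sqrt (Ω * e)
      + 4 * Real.sqrt (Ω / e) * (ν + Λ * (lam + Λ + η) / d1) + 4 * Real.sqrt (Ω / d1) * Λ) * m0 ∧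
  ‖pj u ev (wout E e) (Φ 0)‖ ≤ (2 * Real.sqrt (Ω / e) * lam *
      ((2 * Ω * K0 * lam) ^ J + 6 * Real.sqrt (Ω * e)
        + 4 * Real.sqrt (Ω / e) * (ν + Λ * (lam + Λ + η) / d1) + 4 * Real.sqrt (Ω / d1) * Λ)
      + (ν + Λ * (lam + Λ + η) / d1) / e + Λ / d1 + η / e) * m0

/-! ## H. transplantation to a comparison ring -/

/-- properties of the cut-offs -/
def T_H1 : Prop := ∀ (s L j : ℕ) (k : ℤ), 1 ≤ s → 1 ≤ L →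
  (0 ≤ chi s L j k ∧ chi s L j k ≤ 1) ∧
  (chi s L j k ≠ 0 → chi s L (j + 1) k = 1 ∧ chi s L (j + 1) (k - 1) = 1 ∧
    chi s L (j + 1) (k + 1) = 1) ∧
  (¬ (s : ℤ) ∣ k → chi s L j (k - 1) = chi s L j k) ∧
  (|chi s L j k - chi s L j (k - 1)| ≤ 1 / L) ∧
  (chi s L j k ≠ 0 → -(((j : ℤ) + 2) * L * s) ≤ k ∧ k < ((j : ℤ) + 2) * L * s) ∧
  (-((((j : ℤ) + 1) * L + 1) * s) ≤ k → k < (((j : ℤ) + 1) * L + 1) * s → chi s L j k = 1)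

/-- the commutator identity -/
def T_H2 : Prop := ∀ (p : ℤ) (s L j M : ℕ) [NeZero s] [NeZero M] (β θ φ E E0 : ℝ)
  (ψ g : ℤ → ℂ), 3 ≤ s → 1 ≤ L → 2 * (j + 4) * L ≤ M →
  (∀ n, lop β (θ + φ) ψ n = E0 * ψ n + g n) →
  Tr (p / s) θ (M * s) (cut s L j ψ) - (E : ℂ) • cut s L j ψ
    = Kop (p / s) θ s L j (cut s L (j + 1) ψ) + Vop (p / s) θ β φ s L j (cut s L (j + 1) ψ)
      + cut s L j (fun n => ((E0 : ℂ) - E) * ψ n + g n)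

/-- the commutators live on the weak bonds -/
def T_H3 : Prop := ∀ (p : ℤ) (s L j M : ℕ) [NeZero s] [NeZero M] (θ : ℝ), 3 ≤ s → 1 ≤ L →
  2 * (j + 4) * L ≤ M → ∀ f : Rg (M * s),
  Kop (p / s) θ s L j f = Qp s (Kop (p / s) θ s L j (Qp s f)) ∧
  ‖Kop (p / s) θ s L j f‖ ≤ 2 * Real.pi * |θ| / L * ‖f‖

/-- size of the perturbation -/
def T_H4 : Prop := ∀ (p : ℤ) (s L j M : ℕ) [NeZero s] [NeZero M] (β θ φ δ : ℝ), 3 ≤ s →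
  |β - p / s| ≤ δ → ∀ f : Rg (M * s),
  ‖Vop (p / s) θ β φ s L j f‖ ≤ 13 * (δ * M * s + |φ|) * ‖f‖

/-- size of the perturbation on a window where `Γ` is small -/
def T_H5 : Prop := ∀ (p : ℤ) (s L j M : ℕ) [NeZero s] [NeZero M] (β θ φ δ : ℝ) (ι : Type)
  [Fintype ι] (u : OrthonormalBasis ι ℂ (Rg (M * s))) (ev : ι → ℝ) (E D v d1 : ℝ),
  IsEB (Tr (p / s) θ (M * s)) u ev → 3 ≤ s → 1 ≤ L → 2 * (j + 4) * L ≤ M → |β - p / s| ≤ δ →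
  |θ| ≤ 1 / s → VH (p / s) θ u ev E D v → 0 < D → D ≤ 16 → 0 ≤ v → 0 ≤ d1 → d1 ≤ D / 2 →
  ∀ f, ‖pj u ev (win E d1) (Vop (p / s) θ β φ s L j (pj u ev (win E d1) f))‖
    ≤ (7 * (δ * ((j + 2) * L * s + 1) + |φ|) * v + 600 * (j + 3) * (δ + |φ| / s) / D
      + 40 * (δ * ((j + 2) * L * s + 1) + |φ|) ^ 2) * ‖f‖

/-- a weak bond in every window of `s` sites -/
def T_H6 : Prop := ∀ C0 : ℝ, 1 ≤ C0 → ∃ s0 : ℕ, ∀ (p : ℤ) (s : ℕ) (β θ0 : ℝ), s0 ≤ s →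
  IsCoprime p (s : ℤ) → |β - p / s| ≤ C0 / s ^ 3 → ∀ a : ℤ, ∃ (o : ℕ) (θ : ℝ) (m : ℤ),
  o < s ∧ |θ| ≤ 1 / s ∧ (a + o) * β + θ0 = θ + m

/-- moving the origin -/
def T_H7 : Prop := ∀ (β θ0 θ : ℝ) (a m : ℤ), a * β + θ0 = θ + m →
  ∀ (ψ : ℤ → ℂ) (k : ℤ), lop β θ (fun k => ψ (a + k)) k = lop β θ0 ψ (a + k)

/-- masses of cut-offs, summed over all centres -/
def T_H8 : Prop := ∀ (s L j r N : ℕ) [NeZero r] [NeZero N] (ζ : ℂ) (f : Rg r) (o : ℕ → ℕ),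
  1 ≤ s → 1 ≤ L → ‖ζ‖ = 1 → (∀ a, o a < s) → 6 * L * s ≤ N →
  2 * L * s * ‖f‖ ^ 2 ≤ ∑ a ∈ Finset.range r,
    ‖(cut s L 0 (fun k => ext r ζ f (((a + o a : ℕ) : ℤ) + k)) : Rg N)‖ ^ 2 ∧
  ∑ a ∈ Finset.range r, ‖(cut s L j (fun k => ext r ζ f (((a + o a : ℕ) : ℤ) + k)) : Rg N)‖ ^ 2
    ≤ 2 * (j + 3) * L * s * ‖f‖ ^ 2

/-- Bessel inequality on a window -/
def T_H9 : Prop := ∀ (s L j r N : ℕ) [NeZero r] [NeZero N] (ζ : ℂ) (ι : Type) [Fintype ι]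
  (u : OrthonormalBasis ι ℂ (Rg r)) (n : ℤ), 1 ≤ s → 1 ≤ L → ‖ζ‖ = 1 →
  (∑ i, ‖(cut s L j (fun k => ext r ζ (u i) (n + k)) : Rg N)‖ ^ 2 ≤ 2 * (j + 2) * L * s) ∧
  (2 * (j + 2) * L * s ≤ r → ∀ w : Rg N,
    ∑ i, ‖inner ℂ w (cut s L j (fun k => ext r ζ (u i) (n + k)) : Rg N)‖ ^ 2 ≤ ‖w‖ ^ 2) ∧
  (2 * (j + 2) * L * s ≤ r → ∀ f : Rg r,
    ‖(cut s L j (fun k => ext r ζ f (n + k)) : Rg N)‖ ≤ ‖f‖)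

/-- the norm of a cut-off function -/
def T_H10 : Prop := ∀ (s L j N : ℕ) [NeZero N] (ψ : ℤ → ℂ), 1 ≤ s → 1 ≤ L →
  2 * (j + 3) * L * s ≤ N →
  ‖(cut s L j ψ : Rg N)‖ ^ 2 = ∑ k ∈ Finset.Ico (-(((j : ℤ) + 2) * L * s)) (((j : ℤ) + 2) * L * s),
    (chi s L j k) ^ 2 * ‖ψ k‖ ^ 2

/-! ## I. counting lemmas -/

/-- eigenvalues of a high level inside a band of a low level -/
def T_I1 : Prop := ∀ C0 : ℝ, 1 ≤ C0 → ∃ K : ℝ, 1 ≤ K ∧ ∀ (px : ℤ) (x : ℕ) (pR : ℤ) (R : ℕ),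
  IsCoprime px (x : ℤ) → IsCoprime pR (R : ℤ) → 3 ≤ x → 3 ≤ R →
  |(px / x : ℝ) - pR / R| ≤ C0 / x ^ 3 → (x : ℝ) ^ 2 ≤ C0 * R → ∀ lo hi : ℝ,
  (∀ t : ℝ, |t| ≤ 4 → ∀ r : Fin x → ℝ, (∀ z : ℂ, aeval z (Dl px x) - t = ∏ i, (z - r i)) →
    ∀ i j, r i ∈ Set.Icc (lo - 13 * C0 / x ^ 2) (hi + 13 * C0 / x ^ 2) →
      r j ∈ Set.Icc (lo - 13 * C0 / x ^ 2) (hi + 13 * C0 / x ^ 2) → i = j) →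
  (((rts (Dl pR R)).filter (fun e => lo ≤ e ∧ e ≤ hi)).card : ℝ) ≤ K * R / x

/-- few eigenvalues of a high level near heavy roots of a low level -/
def T_I2 : Prop := ∀ C0 : ℝ, 1 ≤ C0 → ∃ K : ℝ, 1 ≤ K ∧ ∀ (px : ℤ) (x : ℕ) (pR : ℤ) (R : ℕ),
  IsCoprime px (x : ℤ) → IsCoprime pR (R : ℤ) → K ≤ x → 3 ≤ R →
  |(px / x : ℝ) - pR / R| ≤ C0 / x ^ 3 → (x : ℝ) ^ 2 ≤ C0 * R →
  (Nat.card {E // E ∈ rts (Dl pR R) ∧ ¬ NoHeavy px x E ((x : ℝ) ^ (-(5 / 3) : ℝ))} : ℝ)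
    ≤ K * R * (x : ℝ) ^ (-(3 / 4) : ℝ)

/-- elementary properties of `Ncov` -/
def T_I3 : Prop := ∀ δ : ℝ, 0 < δ →
  (∀ F : Finset ℝ, Ncov δ (F : Set ℝ) ≤ 2 * F.card) ∧
  (∀ A B : Set ℝ, Bornology.IsBounded B → A ⊆ B → Ncov δ A ≤ Ncov δ B) ∧
  (∀ A B : Set ℝ, Ncov δ (A ∪ B) ≤ Ncov δ A + Ncov δ B) ∧
  (∀ a b : ℝ, a ≤ b → (Ncov δ (Set.Icc a b) : ℝ) ≤ (b - a) / δ + 3) ∧
  (∀ (κ : Type) (s : Finset κ) (A : κ → Set ℝ), (∀ k ∈ s, Bornology.IsBounded (A k)) →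
    Ncov δ (⋃ k ∈ s, A k) ≤ ∑ k ∈ s, Ncov δ (A k))

/-- the heavy set of a measure has few grid intervals -/
def T_I4 : Prop := ∀ (D : ℝ[X]) (mu : ℝ → ℝ) (T d0 δ : ℝ), (∀ e, 0 ≤ mu e) →
  (∀ e ∈ rts D, |e| ≤ 4) → ∑ e ∈ rts D, mu e ≤ 40 → 1 ≤ T → 0 < δ → δ ≤ d0 → d0 ≤ 1 →
  (Ncov δ {E : ℝ | |E| ≤ 5 ∧ ∃ d, d0 ≤ d ∧ T * d < bm D mu E d} : ℝ)
    ≤ 10000 * (1 + Real.log (1 / d0)) / (T * δ)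

/-- weighted version -/
def T_I5 : Prop := ∀ (s : ℕ) (D : ℝ[X]) (mu : ℝ → ℝ) (T u w0 : ℝ), Disc s D → 1 ≤ s →
  (∀ e, 0 ≤ mu e) → (∀ e ∈ rts D, |e| ≤ 4) → ∑ e ∈ rts D, mu e ≤ 40 → 1 ≤ T → 0 < u → u ≤ 1 →
  0 < w0 → w0 ≤ 1 → ∀ F : Finset ℝ, (∀ e ∈ F, e ∈ rts D ∧ w0 ≤ om D e ∧
    ∃ d, u * om D e ≤ d ∧ T * d < bm D mu e d) →
  ∑ e ∈ F, om D e ≤ 10000 * (1 + Real.log (1 / (u * w0))) / (u * T)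

/-- equidistribution of the local phases -/
def T_I6 : Prop := ∀ (p : ℤ) (s : ℕ) (p' : ℤ) (r : ℕ) (θ0 c τ : ℝ) (o : ℕ → ℕ) (θ : ℕ → ℝ)
  (m : ℕ → ℤ), 1 ≤ s → 1 ≤ r → |p * r - p' * s| = 1 → 0 ≤ τ → (∀ a, o a < s) →
  (∀ a, ((a + o a : ℕ) : ℝ) * (p' / r) + θ0 = θ a + m a) →
  (Nat.card {a : ℕ // a < r ∧ ∃ k : ℤ, |s * θ a - c - k| ≤ τ} : ℝ) ≤ 2 * τ * r + 2 * s + 4

/-! ## J. local comparison lemmas -/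

/-- the local comparison lemma -/
def T_J1 : Prop := ∀ C0 c : ℝ, 1 ≤ C0 → 0 < c → c ≤ 1 / 20 → ∃ J : ℕ, ∀ ε0 : ℝ, 0 < ε0 →
  ∃ s0 : ℕ, ∀ (p : ℤ) (s L M : ℕ) [NeZero s] [NeZero M] (β θ E E0 : ℝ) (ψ : ℤ → ℂ) (ι : Type)
  [Fintype ι] (u : OrthonormalBasis ι ℂ (Rg (M * s))) (ev : ι → ℝ) (e D v : ℝ), s0 ≤ s →
  IsCoprime p (s : ℤ) → L = ⌈(s : ℝ) ^ c⌉₊ → M = 2 * (J + 6) * L →
  |β - p / s| ≤ C0 / s ^ 3 → |θ| ≤ 1 / s → |E| ≤ 5 → (∀ n, lop β θ ψ n = E0 * ψ n) →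
  IsEB (Tr (p / s) θ (M * s)) u ev → (s : ℝ) ^ (-(21 / 10) : ℝ) ≤ e → e ≤ 1 / s →
  (s : ℝ) ^ (-(4 / 5) : ℝ) ≤ D → D ≤ 16 → 0 ≤ v → v ≤ 2 →
  (s : ℝ) ^ (-2 + c) * v ≤ e * (s : ℝ) ^ (-(c / 4)) → VH (p / s) θ u ev E D v →
  OmH s u ev E e ((s : ℝ) ^ (1 + 3 * c / 4)) → |E0 - E| ≤ ε0 / 4 * e → |E0 - E| ≤ e →
  ‖pj u ev (wout E e) (cut s L 0 ψ)‖ ≤ ε0 * ‖(cut s L (J + 2) ψ : Rg (M * s))‖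

/-- the local comparison lemma at phase `0` -/
def T_J2 : Prop := ∀ C0 : ℝ, 1 ≤ C0 → ∃ (K : ℝ) (s0 : ℕ), ∀ (p : ℤ) (s : ℕ) [NeZero s]
  (β φ E : ℝ) (ψ g : ℤ → ℂ) (ι : Type) [Fintype ι] (u : OrthonormalBasis ι ℂ (Rg (16 * s)))
  (ev : ι → ℝ) (e D v Ω m0 : ℝ), s0 ≤ s → IsCoprime p (s : ℤ) → |β - p / s| ≤ C0 / s ^ 3 →
  |φ| ≤ C0 / s ^ 2 → |E| ≤ 5 → (∀ n, lop β φ ψ n = E * ψ n + g n) →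
  IsEB (Tr (p / s) 0 (16 * s)) u ev → (s : ℝ) ^ (-(21 / 10) : ℝ) ≤ e → e ≤ 1 / s →
  (s : ℝ) ^ (-(4 / 5) : ℝ) ≤ D → D ≤ 16 → 0 ≤ v → v ≤ 2 → (s : ℝ) ^ (-2 : ℝ) * v ≤ e →
  VH (p / s) 0 u ev E D v → 0 ≤ Ω → OmH s u ev E e Ω →
  (∀ j ≤ 3, ‖(cut s 1 j ψ : Rg (16 * s))‖ ≤ m0) →
  (∀ j ≤ 2, ‖(cut s 1 j g : Rg (16 * s))‖ ≤ e * m0) →
  ‖Qp s (cut s 1 0 ψ : Rg (16 * s))‖ ≤ K * Real.sqrt (Ω * e) * m0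

/-! ## K. smallness of `Γ` on windows -/

/-- few weight at the weak `y`-sites away from heavy roots of the level `x` -/
def T_K1 : Prop := ∀ C0 : ℝ, 1 ≤ C0 → ∃ K : ℝ, 1 ≤ K ∧ ∀ (px : ℤ) (x : ℕ) (py : ℤ) (y M : ℕ)
  [NeZero y] [NeZero M] (θ E D : ℝ) (ι : Type) [Fintype ι]
  (u : OrthonormalBasis ι ℂ (Rg (M * y))) (ev : ι → ℝ), Adj C0 px x py y → K ≤ x →
  |θ| ≤ 1 / y → IsEB (Tr (py / y) θ (M * y)) u ev → NoHeavy px x E ((x : ℝ) ^ (-(7 / 4) : ℝ)) →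
  0 ≤ D → D ≤ 1 / y → ∀ f,
  ‖Qp y (pj u ev (win E D) f)‖ ^ 2 ≤ K * (x : ℝ) ^ (-(1 / 4) : ℝ) * ‖f‖ ^ 2

/-- commutator bound for `C = i(U + V - h.c.)` -/
def T_K2 : Prop := ∀ (py : ℤ) (y M : ℕ) [NeZero y] [NeZero M] (θ E D : ℝ) (ι : Type) [Fintype ι]
  (u : OrthonormalBasis ι ℂ (Rg (M * y))) (ev : ι → ℝ), 3 ≤ y → |θ| ≤ 1 / y →
  IsEB (Tr (py / y) θ (M * y)) u ev → 0 ≤ D → ∀ f,
  ‖inner ℂ (pj u ev (win E D) f)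
      (bop (fun n => Complex.I * rb (py / y) θ (M * y) n) (pj u ev (win E D) f))‖
    ≤ D * y * ‖f‖ ^ 2 + 7 * ‖Qp y (pj u ev (win E D) f)‖ ^ 2

/-- from rings of level `y` to fibres of level `s` -/
def T_K3 : Prop := ∀ C0 : ℝ, 1 ≤ C0 → ∃ K : ℝ, 1 ≤ K ∧ ∀ (py : ℤ) (y : ℕ) [NeZero y] (ps : ℤ)
  (s : ℕ) [NeZero s] (E v0 : ℝ), Adj C0 py y ps s → K ≤ y → 0 ≤ v0 →
  (∀ (M : ℕ) [NeZero M] (θ : ℝ) (ι : Type) [Fintype ι] (u : OrthonormalBasis ι ℂ (Rg (M * y)))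
    (ev : ι → ℝ), |θ| ≤ 1 / y → IsEB (Tr (py / y) θ (M * y)) u ev → ∀ f,
    ‖inner ℂ (pj u ev (win E ((y : ℝ) ^ (-(11 / 8) : ℝ))) f)
      (bop (fun n => Complex.I * rb (py / y) θ (M * y) n)
        (pj u ev (win E ((y : ℝ) ^ (-(11 / 8) : ℝ))) f))‖ ≤ v0 * ‖f‖ ^ 2) →
  ∀ (θ : ℝ) (ζ : ℂ) (ι : Type) [Fintype ι] (u : OrthonormalBasis ι ℂ (Rg s)) (ev : ι → ℝ),
  ‖ζ‖ = 1 → IsEB (Fi ps s θ ζ) u ev → ∀ f,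
  ‖inner ℂ (pj u ev (win E ((y : ℝ) ^ (-(3 / 2) : ℝ))) f)
    (bop (fun n => Complex.I * fb ps s θ ζ n) (pj u ev (win E ((y : ℝ) ^ (-(3 / 2) : ℝ))) f))‖
    ≤ K * ((y : ℝ) ^ (-(1 / 8) : ℝ) + v0) * ‖f‖ ^ 2

/-- rotation: from `C` to `Γ` in the fibres -/
def T_K4 : Prop := ∀ (p : ℤ) (s : ℕ) [NeZero s] (E D v : ℝ), IsCoprime p (s : ℤ) → 3 ≤ s →
  (∀ (θ : ℝ) (ζ : ℂ) (ι : Type) [Fintype ι] (u : OrthonormalBasis ι ℂ (Rg s)) (ev : ι → ℝ),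
    ‖ζ‖ = 1 → IsEB (Fi p s θ ζ) u ev → ∀ f,
    ‖inner ℂ (pj u ev (win E D) f)
      (bop (fun n => Complex.I * fb p s θ ζ n) (pj u ev (win E D) f))‖ ≤ v * ‖f‖ ^ 2) →
  ∀ (θ : ℝ) (ζ : ℂ) (ι : Type) [Fintype ι] (u : OrthonormalBasis ι ℂ (Rg s)) (ev : ι → ℝ),
    ‖ζ‖ = 1 → IsEB (Fi p s θ ζ) u ev → ∀ f,
    ‖inner ℂ (pj u ev (win E D) f)
      (bop (fun n => Complex.I * fub p s θ ζ n) (pj u ev (win E D) f))‖ ≤ v * ‖f‖ ^ 2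

/-- from the fibres to the rings -/
def T_K5 : Prop := ∀ (p : ℤ) (s : ℕ) [NeZero s] (E D v : ℝ), IsCoprime p (s : ℤ) → 3 ≤ s →
  0 ≤ v →
  (∀ (θ : ℝ) (ζ : ℂ) (ι : Type) [Fintype ι] (u : OrthonormalBasis ι ℂ (Rg s)) (ev : ι → ℝ),
    ‖ζ‖ = 1 → IsEB (Fi p s θ ζ) u ev → ∀ f,
    ‖inner ℂ (pj u ev (win E D) f)
      (bop (fun n => Complex.I * fub p s θ ζ n) (pj u ev (win E D) f))‖ ≤ v * ‖f‖ ^ 2) →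
  ∀ (M : ℕ) [NeZero M] (θ : ℝ) (ι : Type) [Fintype ι] (u : OrthonormalBasis ι ℂ (Rg (M * s)))
    (ev : ι → ℝ), IsEB (Tr (p / s) θ (M * s)) u ev → VH (p / s) θ u ev E D v

/-- the result -/
def T_K6 : Prop := ∀ C0 : ℝ, 1 ≤ C0 → ∃ K : ℝ, 1 ≤ K ∧ ∀ (px : ℤ) (x : ℕ) (py : ℤ) (y : ℕ)
  (ps : ℤ) (s M : ℕ) [NeZero s] [NeZero M] (θ E : ℝ) (ι : Type) [Fintype ι]
  (u : OrthonormalBasis ι ℂ (Rg (M * s))) (ev : ι → ℝ), Adj C0 px x py y → Adj C0 py y ps s →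
  K ≤ x → NoHeavy px x E ((x : ℝ) ^ (-(7 / 4) : ℝ)) → IsEB (Tr (ps / s) θ (M * s)) u ev →
  VH (ps / s) θ u ev E ((y : ℝ) ^ (-(3 / 2) : ℝ)) (K * (x : ℝ) ^ (-(1 / 4) : ℝ))

/-! ## L. covering at the scale `r^{-2}` -/

def T_L1 : Prop := ∀ C0 c : ℝ, 1 ≤ C0 → 0 < c → c ≤ 1 / 20 → ∃ r0 : ℕ, ∀ (p : ℤ) (r : ℕ)
  (p' : ℤ) (q : ℕ) (mu : ℝ → ℝ), Adj C0 p r p' q → r0 ≤ r → (∀ e, 0 ≤ mu e) →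
  (∀ θ : ℝ, |θ| ≤ 1 / r → ∀ e ∈ rts (Dl p r), hw p r θ e ≤ mu e) →
  ∀ E ∈ rts (Dl p' q),
  (∀ d, (r : ℝ) ^ (-2 + 2 * c) ≤ d → bm (Dl p r) mu E d ≤ (r : ℝ) ^ (1 + c / 4) * d) →
  ∃ e ∈ rts (Dl p r), |E - e| ≤ 44 * (om (Dl p r) e + (r : ℝ) ^ (-2 + 2 * c))

def T_L2 : Prop := ∀ C0 ε : ℝ, 1 ≤ C0 → 0 < ε → ∃ r0 : ℕ, ∀ (p : ℤ) (r : ℕ) (p' : ℤ) (q : ℕ),
  Adj C0 p r p' q → r0 ≤ r →
  (Ncov ((r : ℝ) ^ (-2 : ℝ)) (rts (Dl p' q) : Set ℝ) : ℝ) ≤ (r : ℝ) ^ (1 + ε)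

/-! ## M. few wide bands -/

/-- end values of an eigenvector with light energy -/
def T_M1 : Prop := ∀ C0 : ℝ, 1 ≤ C0 → ∃ K : ℝ, 1 ≤ K ∧ ∀ (px : ℤ) (x : ℕ) (py : ℤ) (y : ℕ)
  (ps : ℤ) (s : ℕ) (pr : ℤ) (r : ℕ) [NeZero s] [NeZero r] (ι : Type) [Fintype ι]
  (u : OrthonormalBasis ι ℂ (Rg r)) (ev : ι → ℝ), Adj C0 px x py y → Adj C0 py y ps s →
  Adj C0 ps s pr r → K ≤ x → IsEB (Fi pr r (1 / (2 * r)) Complex.I) u ev → ∀ i,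
  NoHeavy px x (ev i) ((x : ℝ) ^ (-(7 / 4) : ℝ)) →
  (∀ d, (s : ℝ) ^ (-2 - 1 / 80 : ℝ) ≤ d →
    bm (Dl ps s) (om (Dl ps s)) (ev i) d ≤ (s : ℝ) ^ (1 / 400 : ℝ) * d / 2) →
  ‖u i 0‖ * ‖u i (-1)‖ ≤ K * (s : ℝ) ^ (-1 + 1 / 400 - 1 / 80 : ℝ)
    * ‖(cut s 1 3 (ext r Complex.I (u i)) : Rg (16 * s))‖ ^ 2

/-- end values of the eigenvectors near the centre of a band -/
def T_M2 : Prop := ∀ C0 : ℝ, 1 ≤ C0 → ∃ K : ℝ, 1 ≤ K ∧ ∀ (px : ℤ) (x : ℕ) (py : ℤ) (y : ℕ)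
  (ps : ℤ) (s : ℕ) (pr : ℤ) (r : ℕ) [NeZero s] [NeZero r] (ι : Type) [Fintype ι]
  (u : OrthonormalBasis ι ℂ (Rg r)) (ev : ι → ℝ), Adj C0 px x py y → Adj C0 py y ps s →
  Adj C0 ps s pr r → K ≤ x → IsEB (Fi pr r (1 / (2 * r)) Complex.I) u ev →
  ∀ e ∈ rts (Dl ps s), (s : ℝ) ^ (-2 - 1 / 80 : ℝ) ≤ om (Dl ps s) e →
  NoHeavy px x e ((x : ℝ) ^ (-(7 / 4) : ℝ)) →
  ∑ i ∈ Finset.univ.filter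
      (fun i => |ev i - e| ≤ 8 * (s : ℝ) ^ (-(1 / 400) : ℝ) * om (Dl ps s) e),
    (‖u i 0‖ ^ 2 + ‖u i (-1)‖ ^ 2) ≤ K * s * om (Dl ps s) e

/-- number of eigenvalues near the centre of a band -/
def T_M3 : Prop := ∀ C0 : ℝ, 1 ≤ C0 → ∃ K : ℝ, 1 ≤ K ∧ ∀ (px : ℤ) (x : ℕ) (py : ℤ) (y : ℕ)
  (ps : ℤ) (s : ℕ) (pr : ℤ) (r : ℕ) [NeZero s] [NeZero r] (ι : Type) [Fintype ι]
  (u : OrthonormalBasis ι ℂ (Rg r)) (ev : ι → ℝ) (mu : ℝ → ℝ), Adj C0 px x py y →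
  Adj C0 py y ps s → Adj C0 ps s pr r → K ≤ x →
  IsEB (Fi pr r (1 / (2 * r)) Complex.I) u ev → (∀ e, 0 ≤ mu e) →
  (∀ θ : ℝ, |θ| ≤ 1 / s → ∀ e ∈ rts (Dl ps s), hw ps s θ e ≤ mu e) →
  ∀ e ∈ rts (Dl ps s), (s : ℝ) ^ (-2 - 1 / 80 : ℝ) ≤ om (Dl ps s) e →
  NoHeavy px x e ((x : ℝ) ^ (-(7 / 4) : ℝ)) →
  (∀ d, (s : ℝ) ^ (-(1 / 800) : ℝ) * om (Dl ps s) e ≤ d →
    bm (Dl ps s) mu e d ≤ (s : ℝ) ^ (1 + 1 / 80 : ℝ) * d) →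
  (Nat.card {i // |ev i - e| ≤ 8 * (s : ℝ) ^ (-(1 / 400) : ℝ) * om (Dl ps s) e} : ℝ)
    ≤ K * (s : ℝ) ^ (1 - 1 / 1600 : ℝ)

/-- few wide bands -/
def T_M4 : Prop := ∀ C0 : ℝ, 1 ≤ C0 → ∃ (c K : ℝ), 0 < c ∧ c < 1 ∧ 1 ≤ K ∧
  ∀ (px : ℤ) (x : ℕ) (py : ℤ) (y : ℕ) (ps : ℤ) (s : ℕ) (pr : ℤ) (r : ℕ),
  Adj C0 px x py y → Adj C0 py y ps s → Adj C0 ps s pr r → K ≤ x →
  (((rts (Dl pr r)).filter (fun e => (r : ℝ) ^ (-2 - c) ≤ om (Dl pr r) e)).card : ℝ)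
    ≤ (r : ℝ) ^ (1 - c)

/-! ## N. covering at the scale `r^{-3}` -/

/-- light eigenvalues with good phases are close to the spectrum of level `r` -/
def T_N1 : Prop := ∀ C0 : ℝ, 1 ≤ C0 → ∃ K : ℝ, 1 ≤ K ∧ ∀ (py : ℤ) (y : ℕ) (ps : ℤ) (s : ℕ)
  (pr : ℤ) (r : ℕ) (pq : ℤ) (q L N : ℕ) [NeZero q] [NeZero N] (ι : Type) [Fintype ι]
  (u : OrthonormalBasis ι ℂ (Rg q)) (ev : ι → ℝ) (mu : ℝ → ℝ) (o : ℕ → ℕ) (θ : ℕ → ℝ)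
  (m : ℕ → ℤ), Adj C0 py y ps s → Adj C0 ps s pr r → Adj C0 pr r pq q → K ≤ y →
  IsEB (Fi pq q 0 1) u ev → (∀ e, 0 ≤ mu e) →
  (∀ θ : ℝ, |θ| ≤ 1 / r → ∀ e ∈ rts (Dl pr r), hw pr r θ e ≤ mu e) →
  L = ⌈(r : ℝ) ^ (1 / 50 : ℝ)⌉₊ → 6 * L * r ≤ N →
  (∀ a, o a < r ∧ |θ a| ≤ 1 / r ∧ ((a + o a : ℕ) : ℝ) * (pq / q) = θ a + m a) → ∀ i,
  NoHeavy py y (ev i) ((y : ℝ) ^ (-(7 / 4) : ℝ)) →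
  (∀ d, (r : ℝ) ^ (-2 - 1 / 50 : ℝ) ≤ d →
    bm (Dl pr r) mu (ev i) d ≤ (r : ℝ) ^ (1 + 1 / 200 : ℝ) * d) →
  ∑ a ∈ (Finset.range q).filter
      (fun a => 2 * (1 - (r : ℝ) ^ (-(1 / 250) : ℝ)) < ‖1 - ex (r * θ a)‖),
    ‖(cut r L 0 (fun k => ext q 1 (u i) (((a + o a : ℕ) : ℤ) + k)) : Rg N)‖ ^ 2 ≤ L * r →
  ∃ E', |ev i - E'| ≤ (r : ℝ) ^ (-2 - 1 / 50 : ℝ) ∧ |(Dl pr r).eval E'| ≤ 4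

/-- few eigenvalues have much mass on bad phases -/
def T_N2 : Prop := ∀ C0 : ℝ, 1 ≤ C0 → ∃ K : ℝ, 1 ≤ K ∧ ∀ (pr : ℤ) (r : ℕ) (pq : ℤ)
  (q L N : ℕ) [NeZero q] [NeZero N] (ι : Type) [Fintype ι]
  (u : OrthonormalBasis ι ℂ (Rg q)) (o : ℕ → ℕ) (θ : ℕ → ℝ) (m : ℕ → ℤ),
  Adj C0 pr r pq q → K ≤ r → 1 ≤ L →
  (∀ a, o a < r ∧ |θ a| ≤ 1 / r ∧ ((a + o a : ℕ) : ℝ) * (pq / q) = θ a + m a) →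
  (Nat.card {i // L * r < ∑ a ∈ (Finset.range q).filter
      (fun a => 2 * (1 - (r : ℝ) ^ (-(1 / 250) : ℝ)) < ‖1 - ex (r * θ a)‖),
    ‖(cut r L 0 (fun k => ext q 1 (u i) (((a + o a : ℕ) : ℤ) + k)) : Rg N)‖ ^ 2} : ℝ)
    ≤ K * q * (r : ℝ) ^ (-(1 / 500) : ℝ)

/-- the covering -/
def T_N3 : Prop := ∀ C0 : ℝ, 1 ≤ C0 → ∃ (c K : ℝ), 0 < c ∧ 1 ≤ K ∧
  ∀ (px : ℤ) (x : ℕ) (py : ℤ) (y : ℕ) (ps : ℤ) (s : ℕ) (pr : ℤ) (r : ℕ) (pq : ℤ) (q : ℕ),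
  Adj C0 px x py y → Adj C0 py y ps s → Adj C0 ps s pr r → Adj C0 pr r pq q → K ≤ x →
  (Ncov ((r : ℝ) ^ (-3 : ℝ)) (rts (Dl pq q) : Set ℝ) : ℝ) ≤ (r : ℝ) ^ (2 - c)

/-! ## O. the almost Mathieu operator and the dimension -/

/-- approximate eigenfunctions -/
def T_O1 : Prop := ∀ (lam α θ E : ℝ), (E : ℂ) ∈ spectrum ℂ (amoOp lam α θ) → ∀ ε : ℝ, 0 < ε →
  ∃ ψ : L2Z, ψ ≠ 0 ∧ ‖amoOp lam α θ ψ - (E : ℂ) • ψ‖ ≤ ε * ‖ψ‖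

/-- localisation and periodisation -/
def T_O2 : Prop := ∀ C0 : ℝ, 1 ≤ C0 → ∃ K : ℝ, 1 ≤ K ∧ ∀ (α : ℝ) (p : ℤ) (q : ℕ) [NeZero q]
  (E : ℝ), |α - p / q| ≤ C0 / q ^ 3 → E ∈ SpPlus α 1 →
  ∃ (M : ℕ) (_ : NeZero M) (θ E' : ℝ) (f : ZMod (M * q) → ℂ), f ≠ 0 ∧
    (∀ n, f (n - 1) + f (n + 1) + (2 * Real.cos (2 * Real.pi * (θ + n.val * (p / q))) : ℝ) * f n
      = E' * f n) ∧ |E - E'| ≤ K * (q : ℝ) ^ (-(3 / 2) : ℝ)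

/-- almost Mathieu rings and the discriminant -/
def T_O3 : Prop := ∀ (p : ℤ) (q M : ℕ) [NeZero q] [NeZero M] (θ E : ℝ) (f : ZMod (M * q) → ℂ),
  IsCoprime p (q : ℤ) → 3 ≤ q → f ≠ 0 →
  (∀ n, f (n - 1) + f (n + 1) + (2 * Real.cos (2 * Real.pi * (θ + n.val * (p / q))) : ℝ) * f n
      = E * f n) → |(Dl p q).eval E| ≤ 4

/-- covering numbers of the spectrum -/
def T_O4 : Prop := ∀ C0 : ℝ, 1 ≤ C0 → ∃ K : ℝ, 1 ≤ K ∧ ∀ (α : ℝ) (p : ℤ) (q : ℕ) (δ : ℝ),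
  IsCoprime p (q : ℤ) → 3 ≤ q → |α - p / q| ≤ C0 / q ^ 3 →
  (q : ℝ) ^ (-(3 / 2) : ℝ) ≤ C0 ^ 2 * δ → 0 < δ → δ ≤ 1 →
  (Ncov δ (SpPlus α 1) : ℝ) ≤ K * (Ncov δ (rts (Dl p q) : Set ℝ) + 1 / (q * δ)) ∧
  ∀ E ∈ SpPlus α 1, |E| ≤ 4

/-- from two scales to the dimension -/
def T_O5 : Prop := ∀ (S : Set ℝ) (q : ℕ → ℕ) (C0 K c ε : ℝ), Bornology.IsBounded S → 1 ≤ C0 →
  1 ≤ K → 0 < c → c ≤ 1 → 0 < ε → ε ≤ c / 4 → Filter.Tendsto q Filter.atTop Filter.atTop →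
  (∀ n, (q n : ℝ) ^ 2 ≤ C0 * q (n + 1) ∧ (q (n + 1) : ℝ) ≤ C0 * (q n : ℝ) ^ 2) →
  (∀ᶠ n in Filter.atTop, (Ncov ((q n : ℝ) ^ (-2 : ℝ)) S : ℝ) ≤ K * (q n : ℝ) ^ (1 + ε)) →
  (∀ᶠ n in Filter.atTop, (Ncov ((q n : ℝ) ^ (-3 : ℝ)) S : ℝ) ≤ K * (q n : ℝ) ^ (2 - c)) →
  upperBoxDim S < ((2 / 3 : ℝ) : EReal)

/-- the general theorem -/
def T_O6 : Prop := ∀ (α C0 : ℝ) (p : ℕ → ℤ) (q : ℕ → ℕ), 1 ≤ C0 →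
  Filter.Tendsto q Filter.atTop Filter.atTop →
  (∀ n, Adj C0 (p n) (q n) (p (n + 1)) (q (n + 1)) ∧ |α - p n / q n| ≤ C0 / (q n : ℝ) ^ 3) →
  upperBoxDim (SpPlus α 1) < ((2 / 3 : ℝ) : EReal)

/-- Cahen's constant -/
def T_O7 : Prop := ∃ (C0 : ℝ) (p : ℕ → ℤ) (q : ℕ → ℕ), 1 ≤ C0 ∧
  Filter.Tendsto q Filter.atTop Filter.atTop ∧
  ∀ n, Adj C0 (p n) (q n) (p (n + 1)) (q (n + 1)) ∧ |cahen - p n / q n| ≤ C0 / (q n : ℝ) ^ 3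

end Pool.Agent.H98.AM
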